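import Pool.Agent.H18.GIT.Uniform

/-!
# Covariants of uniform degree: the existence
-/

set_option autoImplicit false
set_option linter.unusedSectionVars false

namespace H18.GIT

open MvPolynomial

variable {q : ℕ}

/-- Two polynomials in a matrix with equal values are equal. -/
theorem eq_of_ev {P P' : MvPolynomial (Fin q × Fin q) ℂ}
    (h : ∀ x : Matrix (Fin q) (Fin q) ℂ, Q47.FL.ev x P = Q47.FL.ev x P') : P = P' := by
  apply MvPolynomial.funext
  intro y
  have h1 := h (Matrix.of fun i j => y (i, j))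
  exact h1

theorem ev_sm (g x : Matrix (Fin q) (Fin q) ℂ) (f : MvPolynomial (Fin q × Fin q) ℂ) :
    Q47.FL.ev x (sm g f) = Q47.FL.ev (g * x) f := eval_sm g f x

theorem sm_isHomogeneous {R : Type*} [CommRing R] {n : Type*} [Fintype n] {g : Matrix n n R}
    {f : MvPolynomial (n × n) R} {d : ℕ} (hf : f.IsHomogeneous d) : (sm g f).IsHomogeneous d := by
  have h1 := hf.aeval (fun x => ∑ k, C (g x.1 k) * X (k, x.2)) (n := 1) (fun x =>
    IsHomogeneous.sum _ _ _ fun k _ => by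
      simpa using (isHomogeneous_C (n × n) (g x.1 k)).mul (isHomogeneous_X R (k, x.2)))
  rw [one_mul] at h1
  exact h1

theorem C_mul_isHomogeneous {R σ : Type*} [CommRing R] {f : MvPolynomial σ R} {d : ℕ}
    (hf : f.IsHomogeneous d) (a : R) : (C a * f).IsHomogeneous d := by
  have := (isHomogeneous_C σ a).mul hf
  rwa [zero_add] at this

theorem isCov_cov {b : Fin q → ℕ} (hb : Monotone b) {l : Fin q → ℕ} (hl : Antitone l)
    (hlb : ∀ i j, b i = b j → l i = l j) (D : ℕ) {N : ℕ} {Q : MvPolynomial (Ix q) ℂ}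
    (hQ : Q.IsHomogeneous N) : IsCov b l D N (cov l D ((∑ j, l j) * N) Q) where
  scale := fun f hf x j t => by
    rw [eval_cov l _ Q hf, eval_cov l _ Q hf, val_scale hl _ hQ]
  shear := fun f hf x j k t hjk hbjk => by
    rw [eval_cov l _ Q hf, eval_cov l _ Q hf, val_shear hb hlb _ hQ _ _ _ _ _ hjk hbjk]
  smul := fun f hf a => by
    apply eq_of_ev
    intro x
    have h1 : Q47.FL.ev x (C (a ^ N) * evC (cov l D ((∑ j, l j) * N) Q) f) =
        a ^ N * Q47.FL.ev x (evC (cov l D ((∑ j, l j) * N) Q) f) := by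
      rw [Q47.FL.ev, map_mul, eval_C]
      rfl
    rw [h1, eval_cov l _ Q hf, eval_cov l _ Q (C_mul_isHomogeneous hf a), val_smul l _ hQ]
  left := fun f hf h hh => by
    apply eq_of_ev
    intro x
    rw [eval_cov l _ Q (sm_isHomogeneous hf), ev_sm, eval_cov l _ Q hf, val_left hl hQ hh]

theorem evC_pow {D : ℕ} (c : MvPolynomial (Fin q × Fin q) (Cf q D))
    (f : MvPolynomial (Fin q × Fin q) ℂ) (k : ℕ) : evC (c ^ k) f = evC c f ^ k := by
  rw [evC, map_pow]
  rfl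

theorem ev_pow (x : Matrix (Fin q) (Fin q) ℂ) (P : MvPolynomial (Fin q × Fin q) ℂ) (k : ℕ) :
    Q47.FL.ev x (P ^ k) = Q47.FL.ev x P ^ k := by
  rw [Q47.FL.ev, map_pow]
  rfl

theorem IsCov.pow {b l : Fin q → ℕ} {D N : ℕ} {c : MvPolynomial (Fin q × Fin q) (Cf q D)}
    (hc : IsCov b l D N c) (k : ℕ) : IsCov b l D (N * k) (c ^ k) where
  scale := fun f hf x j t => by
    rw [evC_pow, ev_pow, ev_pow, hc.scale f hf, mul_pow, ← pow_mul]
  shear := fun f hf x j m t hjm hbjm => by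
    rw [evC_pow, ev_pow, ev_pow, hc.shear f hf x j m t hjm hbjm]
  smul := fun f hf a => by
    rw [evC_pow, evC_pow, hc.smul f hf, mul_pow, ← C_pow, ← pow_mul]
  left := fun f hf h hh => by
    rw [evC_pow, evC_pow, hc.left f hf h hh, map_pow]

theorem hom_of_semi {b : Fin q → ℕ} {d : ℕ → ℕ} {f : MvPolynomial (Fin q × Fin q) ℂ}
    (hf : Q47.FL.IsSemiInvariant b d f) : f.IsHomogeneous (∑ j, d (b j)) := by
  intro α hα
  rw [← mem_support_iff] at hα
  have h1 : α.degree = ∑ j, Q47.FL.col α j := by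
    rw [Finsupp.degree_eq_sum, Fintype.sum_prod_type_right]
    rfl
  have h2 : (Finsupp.weight 1) α = α.degree := by
    rw [Finsupp.degree_eq_weight_one]
    rfl
  rw [h2, h1]
  exact Finset.sum_congr rfl fun j _ => Q47.FL.col_of_semi hf hα j

/-- **Semistability, uniformly.** -/
theorem uniform {b : Fin q → ℕ} (hb : Monotone b) {m : ℕ} (hm : 1 ≤ m) {d : ℕ → ℕ}
    {l : Fin q → ℕ} (hl : Antitone l) (hlb : ∀ i j, b i = b j → l i = l j)
    (hld : ∀ j, (l j : ℤ) = d (b j) - m * Q47.FL.anti b j) :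
    ∃ N : ℕ, 1 ≤ N ∧ ∀ f : MvPolynomial (Fin q × Fin q) ℂ, Q47.FL.IsSemiInvariant b d f →
      Q47.FL.IsLogCanonical b m f → ∀ x : Matrix (Fin q) (Fin q) ℂ, x.det ≠ 0 →
      ∃ c, IsCov b l (∑ j, d (b j)) N c ∧ Q47.FL.ev x (evC c f) ≠ 0 := by
  classical
  set D := ∑ j, d (b j) with hD
  let S : Set (MvPolynomial (Fin q × Fin q) (Cf q D)) := {c | ∃ N : ℕ, 1 ≤ N ∧ IsCov b l D N c}
  -- pointwise
  have hpt : ∀ f : MvPolynomial (Fin q × Fin q) ℂ, Q47.FL.IsSemiInvariant b d f →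
      Q47.FL.IsLogCanonical b m f → ∀ x : Matrix (Fin q) (Fin q) ℂ, x.det ≠ 0 →
      ∃ c ∈ S, Q47.FL.ev x (evC c f) ≠ 0 := by
    intro f hf hlc x hx
    obtain ⟨N, hN, Q, hQ, hne⟩ := git (PA l f x) (∑ j, l j) (fun O hO =>
      fsemistable_val hb hm hf hlc hl hld hx O hO)
    refine ⟨cov l D ((∑ j, l j) * N) Q, ⟨N, hN, isCov_cov hb hl hlb D hQ⟩, ?_⟩
    rw [eval_cov l _ Q (hom_of_semi hf), val, apA_eq]
    exact hne
  have hfg : (Submodule.span (MvPolynomial (Fin q × Fin q) (Cf q D)) S).FG :=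
    IsNoetherian.noetherian _
  rw [Submodule.fg_span_iff_fg_span_finset_subset] at hfg
  obtain ⟨T, hTS, hT⟩ := hfg
  have hTS' : ∀ c ∈ T, ∃ N : ℕ, 1 ≤ N ∧ IsCov b l D N c := fun c hc => hTS hc
  choose! n hn1 hn2 using hTS'
  refine ⟨∏ c ∈ T, n c, Finset.one_le_prod' fun c hc => hn1 c hc, fun f hf hlc x hx => ?_⟩
  obtain ⟨c₀, hc₀, hne⟩ := hpt f hf hlc x hx
  obtain ⟨c, hcT, hc⟩ : ∃ c ∈ T, Q47.FL.ev x (evC c f) ≠ 0 := by
    by_contra hcon
    push Not at hcon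
    apply hne
    let ε : MvPolynomial (Fin q × Fin q) (Cf q D) →+* ℂ :=
      (eval fun y : Fin q × Fin q => x y.1 y.2).comp (map (spec D f).toRingHom)
    have h1 : Ideal.span S ≤ RingHom.ker ε := by
      rw [Ideal.span, hT, Submodule.span_le]
      intro c hc
      exact hcon c hc
    exact h1 (Ideal.subset_span hc₀)
  refine ⟨c ^ (∏ c' ∈ T.erase c, n c'), ?_, ?_⟩
  · rw [← Finset.mul_prod_erase T n hcT]
    exact (hn2 c hcT).pow _
  · rw [evC_pow, ev_pow]
    exact pow_ne_zero _ hc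

end H18.GIT
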