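import Pool.Agent.H18.GIT.Defs
import Pool.Agent.H18.GIT.Uniform2

/-!
# The relative log canonical bundle of a family of log canonical pairs on flag varieties
-/

set_option autoImplicit false
set_option linter.unusedSectionVars false

namespace H18.GIT

open MvPolynomial Q47.FL
open scoped Manifold ContDiff

universe u v

section holo

variable {n : ℕ} {B : Type u} [TopologicalSpace B] [ChartedSpace (Fin n → ℂ) B] {U : Set B}

theorem Holo.const (c : ℂ) : Holo (n := n) U fun _ => c := contMDiffOn_const

theorem Holo.add {f g : B → ℂ} (hf : Holo (n := n) U f) (hg : Holo (n := n) U g) :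
    Holo (n := n) U fun p => f p + g p := ContMDiffOn.add hf hg

theorem Holo.mul {f g : B → ℂ} (hf : Holo (n := n) U f) (hg : Holo (n := n) U g) :
    Holo (n := n) U fun p => f p * g p := ContMDiffOn.mul hf hg

theorem Holo.pow {f : B → ℂ} (hf : Holo (n := n) U f) (k : ℕ) :
    Holo (n := n) U fun p => f p ^ k := by
  induction k with
  | zero => simpa using Holo.const (n := n) (U := U) 1
  | succ k ih =>
    simp only [pow_succ]
    exact ih.mul hf

theorem Holo.sum {κ : Type*} {s : Finset κ} {f : κ → B → ℂ} (hf : ∀ i ∈ s, Holo (n := n) U (f i)) :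
    Holo (n := n) U fun p => ∑ i ∈ s, f i p := by
  classical
  induction s using Finset.induction_on with
  | empty => simpa using Holo.const (n := n) (U := U) 0
  | insert i s hi ih =>
    simp only [Finset.sum_insert hi]
    exact (hf i (Finset.mem_insert_self i s)).add (ih fun j hj => hf j (Finset.mem_insert_of_mem hj))

theorem Holo.spec {q D : ℕ} {F : B → MvPolynomial (Fin q × Fin q) ℂ}
    (hF : ∀ α, Holo (n := n) U fun p => coeff α (F p)) (P : Cf q D) :
    Holo (n := n) U fun p => spec D (F p) P := by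
  induction P using MvPolynomial.induction_on with
  | C a =>
    have h1 : (fun p => GIT.spec D (F p) (C a)) = fun _ => a := by
      funext p
      rw [GIT.spec, aeval_C]
      rfl
    rw [h1]
    exact Holo.const a
  | add P Q hP hQ =>
    simp only [map_add]
    exact hP.add hQ
  | mul_X P β hP =>
    simp only [map_mul]
    apply hP.mul
    have h1 : (fun p => GIT.spec D (F p) (X β)) = fun p => coeff β.1 (F p) := by
      funext p
      rw [GIT.spec, aeval_X]
    rw [h1]
    exact hF _

theorem Holo.evC {q D : ℕ} {F : B → MvPolynomial (Fin q × Fin q) ℂ}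
    (hF : ∀ α, Holo (n := n) U fun p => coeff α (F p)) (c : MvPolynomial (Fin q × Fin q) (Cf q D))
    (α : Fin q × Fin q →₀ ℕ) : Holo (n := n) U fun p => coeff α (evC c (F p)) := by
  have h1 : (fun p => coeff α (GIT.evC c (F p))) = fun p => GIT.spec D (F p) (coeff α c) := by
    funext p
    rw [GIT.evC, coeff_map]
    rfl
  rw [h1]
  exact Holo.spec hF _

theorem Holo.coeff_pow {σ : Type*} {G : B → MvPolynomial σ ℂ}
    (hG : ∀ α, Holo (n := n) U fun p => coeff α (G p)) (k : ℕ) :
    ∀ α, Holo (n := n) U fun p => coeff α (G p ^ k) := by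
  classical
  induction k with
  | zero =>
    intro α
    simp only [pow_zero]
    exact Holo.const _
  | succ k ih =>
    intro α
    simp only [pow_succ, coeff_mul]
    exact Holo.sum fun x _ => (ih x.1).mul (hG x.2)

end holo

section weights

variable {q : ℕ}

/-- The weight of the adjoint line bundle. -/
theorem exists_l {b : Fin q → ℕ} (hb : Monotone b) {m : ℕ} {d : ℕ → ℕ}
    (hnef : IsFibreNef b fun j => d (b j) - m * anti b j) :
    ∃ l : Fin q → ℕ, Antitone l ∧ (∀ i j, b i = b j → l i = l j) ∧
      ∀ j, (l j : ℤ) = d (b j) - m * anti b j := by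
  have hanti : ∀ i j, b i = b j → anti b i = anti b j := by
    intro i j hij
    rw [anti, anti, hij]
  set L : Fin q → ℤ := fun j => d (b j) - m * anti b j with hL
  have hLb : ∀ i j, b i = b j → L i = L j := by
    intro i j hij
    simp only [hL]
    rw [hij, hanti i j hij]
  have hLanti : Antitone L := by
    intro i j hij
    rcases (hb hij).lt_or_eq with h | h
    · exact hnef i j h
    · exact (hLb i j h).ge
  have hpos : ∀ j, 0 ≤ L j := by
    intro j
    rcases Nat.eq_zero_or_pos q with h0 | hq
    · subst h0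
      exact j.elim0
    · have hlast : 0 ≤ L ⟨q - 1, by omega⟩ := by
        simp only [hL]
        have h1 : anti b ⟨q - 1, by omega⟩ ≤ 0 := by
          rw [anti]
          have h2 : (Finset.univ.filter fun k => b ⟨q - 1, by omega⟩ < b k) = ∅ := by
            rw [Finset.filter_eq_empty_iff]
            intro k _
            exact not_lt.2 (hb (by
              rw [Fin.le_def]
              have := k.2
              simp only
              omega))
          rw [h2, Finset.card_empty]
          have : (0 : ℤ) ≤ ((Finset.univ.filter fun k => b k < b ⟨q - 1, by omega⟩).card : ℤ) :=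
            Int.natCast_nonneg _
          push_cast
          omega
        have h3 : (m : ℤ) * anti b ⟨q - 1, by omega⟩ ≤ 0 :=
          mul_nonpos_of_nonneg_of_nonpos (Int.natCast_nonneg _) h1
        have h4 : (0 : ℤ) ≤ (d (b ⟨q - 1, by omega⟩) : ℤ) := Int.natCast_nonneg _
        omega
      exact hlast.trans (hLanti (by
        rw [Fin.le_def]
        have := j.2
        simp only
        omega))
  refine ⟨fun j => (L j).toNat, fun i j hij => Int.toNat_le_toNat (hLanti hij),
    fun i j hij => congrArg Int.toNat (hLb i j hij), fun j => Int.toNat_of_nonneg (hpos j)⟩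

/-- The weight as a function of the block. -/
theorem exists_d' (b : Fin q → ℕ) (l : Fin q → ℕ) (hlb : ∀ i j, b i = b j → l i = l j) :
    ∃ d' : ℕ → ℕ, ∀ j, d' (b j) = l j := by
  classical
  refine ⟨fun k => if h : ∃ j, b j = k then l h.choose else 0, fun j => ?_⟩
  have h : ∃ i, b i = b j := ⟨j, rfl⟩
  simp only
  rw [dif_pos h]
  exact hlb _ _ h.choose_spec

end weights

/-- The first assertion: the relative log canonical bundle. -/
theorem relative {q : ℕ} {b : Fin q → ℕ} (hb : Monotone b) {m : ℕ} (hm : 1 ≤ m) {d : ℕ → ℕ}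
    (hnef : IsFibreNef b fun j => d (b j) - m * anti b j) :
    ∃ N : ℕ, 1 ≤ N ∧ ∀ (n : ℕ) (B : Type u) [TopologicalSpace B] [ChartedSpace (Fin n → ℂ) B]
      (ι : Type v) (Y : FlagBundle n B q ι) (F : ι → B → MvPolynomial (Fin q × Fin q) ℂ)
      (e : ι → ι → B → ℂ), Y.IsDivisor b d F e →
      ∀ i, ∀ p ∈ Y.U i, IsLogCanonical b m (F i p) →
        ∀ g : Matrix (Fin q) (Fin q) ℂ, g.det ≠ 0 →
          ∃ G, Y.IsRelativeSection b m d e N G ∧ ev g (G i p) ≠ 0 := by
  obtain ⟨l, hl, hlb, hld⟩ := exists_l hb hnef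
  obtain ⟨N, hN, hN2⟩ := uniform hb hm hl hlb hld
  refine ⟨N, hN, fun n B _ _ ι Y F e hF i p hp hlc g hg => ?_⟩
  obtain ⟨c, hc, hne⟩ := hN2 (F i p) (hF.semi i p hp) hlc g hg
  obtain ⟨d', hd'⟩ := exists_d' b (fun j => N * l j) fun i j hij => by rw [hlb i j hij]
  refine ⟨fun i p => evC c (F i p), ⟨fun i α => Holo.evC (hF.holo i) c α, ⟨d', fun j => ?_,
    fun i p hp => ?_⟩, fun i j p hp g => ?_⟩, hne⟩
  · rw [hd', ← hld]
    push_cast
    ring
  · have hhom := hom_of_semi (hF.semi i p hp)
    refine ⟨fun x j t => ?_, fun x j k t hjk hbjk => hc.shear _ hhom x j k t hjk hbjk⟩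
    rw [hc.scale _ hhom, ← pow_mul, hd', mul_comm N]
  · have hhom := hom_of_semi (hF.semi i p hp.1)
    have hhom' := hom_of_semi (hF.semi j p hp.2)
    have h1 : sm (Y.A i j p) (F i p) = C (e i j p) * F j p := by
      apply eq_of_ev
      intro x
      rw [ev_sm, hF.eq i j p hp x]
      simp only [ev, map_mul, eval_C]
    rw [← ev_sm, ← hc.left _ hhom _ (Y.det_ne_zero i j p hp), h1, hc.smul _ hhom']
    simp only [ev, map_mul, eval_C]

theorem semi_pow_mul {q : ℕ} {b : Fin q → ℕ} {d d' : ℕ → ℕ} {P : MvPolynomial (Fin q × Fin q) ℂ}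
    (hP : IsSemiInvariant b d P) (k : ℕ) (hd : ∀ j, d' (b j) = k * d (b j)) (a : ℂ) :
    IsSemiInvariant b d' (C a * P ^ k) where
  scale := fun g j t => by
    have h1 := hP.scale g j t
    simp only [ev, map_mul, map_pow, eval_C] at h1 ⊢
    rw [h1, mul_pow, ← pow_mul, hd, mul_comm k]
    ring
  shear := fun g j l t hjl hb => by
    have h1 := hP.shear g j l t hjl hb
    simp only [ev, map_mul, map_pow, eval_C] at h1 ⊢
    rw [h1]

/-- The second assertion: the log canonical bundle. -/
theorem absolute {q : ℕ} {b : Fin q → ℕ} {m : ℕ} {d : ℕ → ℕ} {N : ℕ} {n : ℕ} {B : Type u}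
    [TopologicalSpace B] [ChartedSpace (Fin n → ℂ) B] {ι : Type v} (Y : FlagBundle n B q ι)
    {e : ι → ι → B → ℂ} {N' : ℕ} {s : ι → B → ℂ} (hs : Y.IsPluricanonicalForm N' s)
    {G : ι → B → MvPolynomial (Fin q × Fin q) ℂ} (hG : Y.IsRelativeSection b m d e N G) :
    Y.IsLogPluricanonicalSection b m d e (N * N') fun i p => C (s i p ^ (m * N)) * G i p ^ N' where
  holo := fun i α => by
    simp only [coeff_C_mul]
    exact ((hs.holo i).pow _).mul (Holo.coeff_pow (hG.holo i) N' α)
  semi := by
    obtain ⟨d', hd', hsemi⟩ := hG.semi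
    refine ⟨fun k => N' * d' k, fun j => ?_, fun i p hp => semi_pow_mul (hsemi i p hp) N' (fun j => rfl) _⟩
    push_cast
    rw [hd']
    ring
  eq := fun i j p hp g => by
    have h1 := hG.eq i j p hp g
    have h2 := hs.eq i j p hp
    simp only [ev, map_mul, map_pow, eval_C] at h1 ⊢
    rw [h1, ← h2]
    ring

end H18.GIT
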