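import Mathlib

/-!
# The apolar pairing of polynomials, and linear functionals on polynomials in a matrix that transform
by a power of the determinant
-/

set_option autoImplicit false
set_option linter.unusedSectionVars false

namespace H18.GIT

open MvPolynomial

section pairing

variable {σ : Type*}

/-- The product of the factorials. -/
noncomputable def fac (α : σ →₀ ℕ) : ℂ := α.prod fun _ k => (k.factorial : ℂ)

theorem fac_ne_zero (α : σ →₀ ℕ) : fac α ≠ 0 := by
  rw [fac, Finsupp.prod]
  exact Finset.prod_ne_zero_iff.2 fun i _ => by exact_mod_cast (Nat.factorial_pos _).ne'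

theorem fac_zero : fac (0 : σ →₀ ℕ) = 1 := by simp [fac]

theorem fac_add_single [DecidableEq σ] (α : σ →₀ ℕ) (i : σ) :
    fac (α + Finsupp.single i 1) = (α i + 1) * fac α := by
  have h1 : fac (α + Finsupp.single i 1) = ∏ j ∈ insert i α.support,
      (((α + Finsupp.single i 1 : σ →₀ ℕ) j).factorial : ℂ) := by
    rw [fac]
    apply Finsupp.prod_of_support_subset
    · intro j hj
      rw [Finsupp.mem_support_iff, Finsupp.add_apply] at hj
      rw [Finset.mem_insert, Finsupp.mem_support_iff]
      by_cases h : j = i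
      · exact Or.inl h
      · right
        rw [Finsupp.single_eq_of_ne h, add_zero] at hj
        exact hj
    · intro j _
      simp
  have h2 : fac α = ∏ j ∈ insert i α.support, ((α j).factorial : ℂ) := by
    rw [fac]
    apply Finsupp.prod_of_support_subset
    · exact Finset.subset_insert _ _
    · intro j _
      simp
  rw [h1, h2, ← Finset.mul_prod_erase _ _ (Finset.mem_insert_self i α.support),
    ← Finset.mul_prod_erase _ (fun j => ((α j).factorial : ℂ)) (Finset.mem_insert_self i α.support)]
  rw [← mul_assoc]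
  congr 1
  · rw [Finsupp.add_apply, Finsupp.single_eq_same, Nat.factorial_succ]
    push_cast
    ring
  · refine Finset.prod_congr rfl fun j hj => ?_
    rw [Finsupp.add_apply, Finsupp.single_eq_of_ne (Finset.ne_of_mem_erase hj), add_zero]

/-- The apolar pairing, as a bilinear map. -/
noncomputable def ap : MvPolynomial σ ℂ →ₗ[ℂ] MvPolynomial σ ℂ →ₗ[ℂ] ℂ :=
  (basisMonomials σ ℂ).constr ℂ fun α => fac α • (lcoeff ℂ α)

theorem ap_monomial (α : σ →₀ ℕ) (c : ℂ) (Q : MvPolynomial σ ℂ) :
    ap (monomial α c) Q = c * (fac α * coeff α Q) := by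
  have h : monomial α c = c • (basisMonomials σ ℂ) α := by
    rw [coe_basisMonomials, smul_monomial, smul_eq_mul, mul_one]
  rw [h, map_smul, ap, Module.Basis.constr_basis]
  simp

theorem ap_monomial_monomial [DecidableEq σ] (α β : σ →₀ ℕ) (c e : ℂ) :
    ap (monomial α c) (monomial β e) = if α = β then c * e * fac α else 0 := by
  rw [ap_monomial, coeff_monomial]
  by_cases h : α = β
  · rw [if_pos h, if_pos h.symm]
    ring
  · rw [if_neg h, if_neg fun h' => h h'.symm]
    ring

theorem ap_symm (P Q : MvPolynomial σ ℂ) : ap P Q = ap Q P := by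
  classical
  induction P using MvPolynomial.induction_on' with
  | monomial α c =>
    induction Q using MvPolynomial.induction_on' with
    | monomial β e =>
      rw [ap_monomial_monomial, ap_monomial_monomial]
      by_cases h : α = β
      · rw [if_pos h, if_pos h.symm, h]
        ring
      · rw [if_neg h, if_neg fun h' => h h'.symm]
    | add p q hp hq => rw [map_add, hp, hq, map_add, LinearMap.add_apply]
  | add p q hp hq => rw [map_add, LinearMap.add_apply, hp, hq, map_add]

theorem ap_X_mul (i : σ) (P Q : MvPolynomial σ ℂ) : ap (X i * P) Q = ap P (pderiv i Q) := by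
  classical
  induction P using MvPolynomial.induction_on' with
  | monomial α c =>
    induction Q using MvPolynomial.induction_on' with
    | monomial β e =>
      rw [X, monomial_mul, pderiv_monomial, ap_monomial_monomial, ap_monomial_monomial, one_mul]
      by_cases h : Finsupp.single i 1 + α = β
      · rw [if_pos h, if_pos, ← h, add_comm (Finsupp.single i 1) α, fac_add_single,
          Finsupp.add_apply, Finsupp.single_eq_same]
        · push_cast
          ring
        · rw [← h, add_comm, add_tsub_cancel_right]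
      · rw [if_neg h]
        by_cases h2 : α = β - Finsupp.single i 1
        · rw [if_pos h2]
          have h3 : β i = 0 := by
            by_contra h4
            apply h
            rw [h2, add_comm]
            ext j
            rw [Finsupp.add_apply, Finsupp.tsub_apply]
            by_cases hj : j = i
            · rw [hj, Finsupp.single_eq_same]
              omega
            · rw [Finsupp.single_eq_of_ne hj]
              omega
          rw [h3]
          simp
        · rw [if_neg h2]
    | add p q hp hq => rw [map_add, hp, hq, map_add, map_add]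
  | add p q hp hq => rw [mul_add, map_add, LinearMap.add_apply, hp, hq, map_add, LinearMap.add_apply]

theorem ap_C (c : ℂ) (Q : MvPolynomial σ ℂ) : ap (C c) Q = c * constantCoeff Q := by
  rw [C_apply, ap_monomial, fac_zero, one_mul]
  rfl

theorem ap_nondeg {D : MvPolynomial σ ℂ} (h : ∀ P, ap D P = 0) : D = 0 := by
  ext α
  have h1 := h (monomial α 1)
  rw [ap_symm, ap_monomial, one_mul] at h1
  rw [coeff_zero]
  exact (mul_eq_zero.1 h1).resolve_left (fac_ne_zero α)

/-- The adjoint of a multiplication. -/
theorem exists_adj (Q : MvPolynomial σ ℂ) : ∀ R : MvPolynomial σ ℂ, ∃ D, ∀ P, ap R (P * Q) = ap D P := by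
  induction Q using MvPolynomial.induction_on with
  | C a =>
    intro R
    refine ⟨C a * R, fun P => ?_⟩
    rw [mul_comm P, ← smul_eq_C_mul, ← smul_eq_C_mul, map_smul, map_smul]
    rfl
  | add p q hp hq =>
    intro R
    obtain ⟨D1, h1⟩ := hp R
    obtain ⟨D2, h2⟩ := hq R
    refine ⟨D1 + D2, fun P => ?_⟩
    rw [mul_add, map_add, h1, h2, map_add, LinearMap.add_apply]
  | mul_X p i hp =>
    intro R
    obtain ⟨D, h⟩ := hp (pderiv i R)
    refine ⟨D, fun P => ?_⟩
    rw [← h, ← mul_assoc, mul_comm _ (X i), ap_symm, ap_X_mul, ap_symm]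

/-- A nonzero polynomial with integral coefficients has a nonzero square length. -/
theorem ap_self_ne_zero (P : MvPolynomial σ ℤ) (hP : P ≠ 0) :
    ap (P.map (Int.castRingHom ℂ)) (P.map (Int.castRingHom ℂ)) ≠ 0 := by
  classical
  have h1 : ap (P.map (Int.castRingHom ℂ)) (P.map (Int.castRingHom ℂ)) =
      ∑ α ∈ P.support, ((coeff α P : ℤ) : ℂ) * (fac α * ((coeff α P : ℤ) : ℂ)) := by
    have h0 : (P.map (Int.castRingHom ℂ)) = ∑ α ∈ P.support, monomial α ((coeff α P : ℤ) : ℂ) := by
      conv_lhs => rw [P.as_sum]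
      rw [map_sum]
      exact Finset.sum_congr rfl fun α _ => by rw [map_monomial]; rfl
    have h00 : ap (P.map (Int.castRingHom ℂ)) = ap (∑ α ∈ P.support, monomial α ((coeff α P : ℤ) : ℂ)) := by
      rw [h0]
    rw [h00, map_sum, LinearMap.sum_apply]
    refine Finset.sum_congr rfl fun α hα => ?_
    rw [ap_monomial, coeff_map]
    rfl
  rw [h1]
  have h2 : ∑ α ∈ P.support, ((coeff α P : ℤ) : ℂ) * (fac α * ((coeff α P : ℤ) : ℂ)) =
      ((∑ α ∈ P.support, (coeff α P) ^ 2 * (α.prod fun _ k => (k.factorial : ℤ)) : ℤ) : ℂ) := by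
    rw [Int.cast_sum]
    refine Finset.sum_congr rfl fun α _ => ?_
    rw [fac, Finsupp.prod, Finsupp.prod]
    push_cast
    ring
  rw [h2, Int.cast_ne_zero]
  apply ne_of_gt
  apply Finset.sum_pos
  · intro α hα
    have h3 : 0 < α.prod fun _ k => (k.factorial : ℤ) := by
      rw [Finsupp.prod]
      exact Finset.prod_pos fun i _ => by exact_mod_cast Nat.factorial_pos _
    have h4 : 0 < (coeff α P) ^ 2 := by
      have := mem_support_iff.1 hα
      positivity
    exact mul_pos h4 h3
  · exact MvPolynomial.support_nonempty.2 hP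

end pairing

section matrix

variable {n : Type*} [Fintype n] [DecidableEq n]

/-- The left multiplication of the generic matrix by `h`. -/
noncomputable def lt (h : Matrix n n ℂ) : MvPolynomial (n × n) ℂ →ₐ[ℂ] MvPolynomial (n × n) ℂ :=
  aeval fun x => ∑ k, C (h x.1 k) * X (k, x.2)

theorem lt_X (h : Matrix n n ℂ) (x : n × n) : lt h (X x) = ∑ k, C (h x.1 k) * X (k, x.2) := by
  rw [lt, aeval_X]

theorem lt_C (h : Matrix n n ℂ) (c : ℂ) : lt h (C c) = C c := by
  rw [lt, aeval_C]
  rfl

theorem eval_lt (h g : Matrix n n ℂ) (P : MvPolynomial (n × n) ℂ) :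
    eval (fun x => g x.1 x.2) (lt h P) = eval (fun x => (h * g) x.1 x.2) P := by
  rw [lt, aeval_def, eval₂_eq', map_sum, eval_eq']
  refine Finset.sum_congr rfl fun α _ => ?_
  rw [map_mul, map_prod]
  congr 1
  · exact eval_C _
  · refine Finset.prod_congr rfl fun x _ => ?_
    rw [map_pow, map_sum]
    congr 1
    rw [Matrix.mul_apply]
    refine Finset.sum_congr rfl fun k _ => ?_
    rw [map_mul, eval_C, eval_X]

theorem pderiv_lt (h : Matrix n n ℂ) (i j : n) (Q : MvPolynomial (n × n) ℂ) :
    pderiv (i, j) (lt h Q) = ∑ k, C (h k i) * lt h (pderiv (k, j) Q) := by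
  induction Q using MvPolynomial.induction_on with
  | C a =>
    rw [lt_C, pderiv_C]
    simp
  | add p q hp hq =>
    rw [map_add, map_add, hp, hq, ← Finset.sum_add_distrib]
    refine Finset.sum_congr rfl fun k _ => ?_
    rw [map_add, map_add, mul_add]
  | mul_X p x hp =>
    rw [map_mul, Derivation.leibniz, hp]
    have h1 : pderiv (i, j) (lt h (X x)) = ∑ k, C (h k i) * lt h (pderiv (k, j) (X x)) := by
      rw [lt_X, map_sum]
      have h2 : ∀ k, pderiv (i, j) (C (h x.1 k) * X (k, x.2)) =
          if i = k ∧ j = x.2 then C (h x.1 k) else 0 := by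
        intro k
        rw [pderiv_C_mul, pderiv_X]
        by_cases hk : i = k ∧ j = x.2
        · rw [if_pos hk, hk.1, hk.2, Pi.single_eq_same, mul_one]
        · rw [if_neg hk, Pi.single_eq_of_ne, mul_zero]
          intro h3
          apply hk
          have h4 := Prod.ext_iff.1 h3
          exact ⟨h4.1.symm, h4.2.symm⟩
      simp only [h2]
      have h3 : ∀ k, C (h k i) * lt h (pderiv (k, j) (X x)) =
          if k = x.1 ∧ j = x.2 then C (h k i) else 0 := by
        intro k
        rw [pderiv_X]
        by_cases hk : k = x.1 ∧ j = x.2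
        · have : (k, j) = x := Prod.ext hk.1 hk.2
          rw [if_pos hk, this, Pi.single_eq_same, map_one, mul_one]
        · rw [if_neg hk, Pi.single_eq_of_ne, map_zero, mul_zero]
          intro h3
          exact hk ⟨congrArg Prod.fst h3.symm, congrArg Prod.snd h3.symm⟩
      simp only [h3]
      by_cases hj : j = x.2
      · simp [hj]
      · simp [hj]
    rw [h1, smul_eq_mul, smul_eq_mul, Finset.mul_sum, Finset.mul_sum, ← Finset.sum_add_distrib]
    refine Finset.sum_congr rfl fun k _ => ?_
    rw [Derivation.leibniz, map_add, smul_eq_mul, smul_eq_mul, map_mul, map_mul]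
    ring

theorem constantCoeff_lt (h : Matrix n n ℂ) (Q : MvPolynomial (n × n) ℂ) :
    constantCoeff (lt h Q) = constantCoeff Q := by
  have h1 : (constantCoeff : MvPolynomial (n × n) ℂ →+* ℂ).comp (lt h).toRingHom = constantCoeff := by
    apply MvPolynomial.ringHom_ext
    · intro c
      rw [RingHom.comp_apply]
      change constantCoeff (lt h (C c)) = _
      rw [lt_C]
    · intro x
      rw [RingHom.comp_apply]
      change constantCoeff (lt h (X x)) = _
      rw [lt_X, map_sum, constantCoeff_X]
      exact Finset.sum_eq_zero fun k _ => by rw [map_mul, constantCoeff_X, mul_zero]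
  exact congrArg (fun f : MvPolynomial (n × n) ℂ →+* ℂ => f Q) h1

/-- The left multiplications are adjoint. -/
theorem ap_lt (h : Matrix n n ℂ) (P Q : MvPolynomial (n × n) ℂ) :
    ap (lt h.transpose P) Q = ap P (lt h Q) := by
  induction P using MvPolynomial.induction_on generalizing Q with
  | C a =>
    rw [lt_C, ap_C, ap_C, constantCoeff_lt]
  | add p q hp hq => rw [map_add, map_add, LinearMap.add_apply, hp, hq, map_add, LinearMap.add_apply]
  | mul_X p x hp =>
    rw [map_mul, lt_X, Finset.mul_sum, map_sum, LinearMap.sum_apply]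
    have h1 : ∀ k, ap (lt h.transpose p * (C (h.transpose x.1 k) * X (k, x.2))) Q =
        ap p (C (h k x.1) * lt h (pderiv (k, x.2) Q)) := by
      intro k
      have h2 : lt h.transpose p * (C (h.transpose x.1 k) * X (k, x.2)) =
          h k x.1 • (X (k, x.2) * lt h.transpose p) := by
        rw [smul_eq_C_mul, Matrix.transpose_apply]
        ring
      rw [h2, map_smul, LinearMap.smul_apply, ap_X_mul, hp, ← smul_eq_C_mul, map_smul]
    simp only [h1]
    rw [← map_sum, ← pderiv_lt, ← ap_X_mul, mul_comm]

/-- The determinant of the generic matrix. -/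
noncomputable def dt (n : Type*) [Fintype n] [DecidableEq n] : MvPolynomial (n × n) ℂ :=
  (Matrix.of fun i j => (X (i, j) : MvPolynomial (n × n) ℂ)).det

theorem eval_dt (g : Matrix n n ℂ) : eval (fun x => g x.1 x.2) (dt n) = g.det := by
  rw [dt, RingHom.map_det]
  congr 1
  ext i j
  simp

theorem dt_ne_zero : dt n ≠ 0 := by
  intro h
  have h1 := eval_dt (1 : Matrix n n ℂ)
  rw [h, map_zero, Matrix.det_one] at h1
  exact zero_ne_one h1

theorem lt_dt (h : Matrix n n ℂ) : lt h (dt n) = C h.det * dt n := by
  rw [dt, AlgHom.map_det, RingHom.map_det, ← Matrix.det_mul]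
  congr 1
  ext i j
  rw [Matrix.mul_apply]
  simp only [AlgHom.mapMatrix_apply, Matrix.map_apply, Matrix.of_apply, RingHom.mapMatrix_apply]
  rw [lt_X]

/-- The determinant with integral coefficients. -/
noncomputable def dtZ (n : Type*) [Fintype n] [DecidableEq n] : MvPolynomial (n × n) ℤ :=
  (Matrix.of fun i j => (X (i, j) : MvPolynomial (n × n) ℤ)).det

theorem map_dtZ : (dtZ n).map (Int.castRingHom ℂ) = dt n := by
  rw [dt, dtZ, RingHom.map_det]
  congr 1
  ext i j
  simp

theorem ap_dt_pow (a : ℕ) : ap (dt n ^ a) (dt n ^ a) ≠ 0 := by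
  rw [← map_dtZ, ← map_pow]
  apply ap_self_ne_zero
  apply pow_ne_zero
  intro h
  apply dt_ne_zero (n := n)
  rw [← map_dtZ, h, map_zero]

/-- Two polynomials which agree on the invertible matrices are equal. -/
theorem eq_of_eval {P Q : MvPolynomial (n × n) ℂ}
    (h : ∀ g : Matrix n n ℂ, g.det ≠ 0 → eval (fun x => g x.1 x.2) P = eval (fun x => g x.1 x.2) Q) :
    P = Q := by
  have h1 : (P - Q) * dt n = 0 := by
    apply MvPolynomial.funext
    intro y
    have h2 := h (Matrix.of fun i j => y (i, j))
    have h3 : (fun x : n × n => (Matrix.of fun i j => y (i, j)) x.1 x.2) = y := by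
      funext x
      rfl
    have h4 := eval_dt (Matrix.of fun i j => y (i, j))
    rw [h3] at h2 h4
    rw [map_mul, map_sub, map_zero, h4]
    by_cases hd : (Matrix.of fun i j => y (i, j)).det = 0
    · rw [hd, mul_zero]
    · rw [h2 hd, sub_self, zero_mul]
  exact sub_eq_zero.1 ((mul_eq_zero.1 h1).resolve_right dt_ne_zero)

/-- The functional `P ↦ [det ^ (a + b), P det ^ b]` is a multiple of `P ↦ [det ^ a, P]`. -/
theorem exists_const (a b : ℕ) :
    ∃ c : ℂ, ∀ P : MvPolynomial (n × n) ℂ, ap (dt n ^ (a + b)) (P * dt n ^ b) = c * ap (dt n ^ a) P := by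
  obtain ⟨D, hD⟩ := exists_adj (dt n ^ b) (dt n ^ (a + b))
  have h1 : ∀ h : Matrix n n ℂ, h.det ≠ 0 → lt h.transpose D = C (h.det ^ a) * D := by
    intro h hd
    rw [← sub_eq_zero]
    apply ap_nondeg
    intro P
    rw [map_sub, LinearMap.sub_apply, ap_lt, ← smul_eq_C_mul, map_smul, LinearMap.smul_apply,
      ← hD, ← hD, smul_eq_mul]
    have h2 : h.det ^ b * ap (dt n ^ (a + b)) (lt h P * dt n ^ b) =
        h.det ^ b * (h.det ^ a * ap (dt n ^ (a + b)) (P * dt n ^ b)) := by
      have h3 : h.det ^ b * ap (dt n ^ (a + b)) (lt h P * dt n ^ b) =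
          ap (dt n ^ (a + b)) (lt h (P * dt n ^ b)) := by
        have h4 : lt h (P * dt n ^ b) = h.det ^ b • (lt h P * dt n ^ b) := by
          rw [map_mul, map_pow, lt_dt, mul_pow, ← C_pow, smul_eq_C_mul]
          ring
        rw [h4, map_smul, smul_eq_mul]
      rw [h3, ← ap_lt, map_pow, lt_dt, Matrix.det_transpose, mul_pow, ← C_pow, ← smul_eq_C_mul,
        map_smul, LinearMap.smul_apply, smul_eq_mul, pow_add]
      ring
    rw [sub_eq_zero]
    exact mul_left_cancel₀ (pow_ne_zero b hd) h2
  have h2 : D = C (eval (fun x => (1 : Matrix n n ℂ) x.1 x.2) D) * dt n ^ a := by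
    apply eq_of_eval
    intro g hg
    have h3 := congrArg (eval fun x => (1 : Matrix n n ℂ) x.1 x.2)
      (h1 g.transpose (by rwa [Matrix.det_transpose]))
    rw [Matrix.transpose_transpose, eval_lt, mul_one, map_mul, eval_C, Matrix.det_transpose] at h3
    rw [h3, map_mul, eval_C, map_pow, eval_dt]
    ring
  refine ⟨eval (fun x => (1 : Matrix n n ℂ) x.1 x.2) D, fun P => ?_⟩
  rw [hD]
  conv_lhs => rw [h2]
  rw [← smul_eq_C_mul, map_smul, LinearMap.smul_apply, smul_eq_mul]

end matrix

end H18.GIT
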