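import Pool.Agent.H18.GIT.FVal

/-!
# Covariants
-/

set_option autoImplicit false
set_option linter.unusedSectionVars false

namespace H18.GIT

open MvPolynomial

section functional

variable {σ : Type*} {A B : Type*} [CommRing A] [CommRing B] [Algebra ℂ A] [Algebra ℂ B]

/-- The pairing with a polynomial, over an algebra. -/
noncomputable def apA (D : MvPolynomial σ ℂ) : MvPolynomial σ A →ₗ[A] A :=
  ∑ γ ∈ D.support, (algebraMap ℂ A (fac γ * coeff γ D)) • lcoeff A γ

theorem apA_apply (D : MvPolynomial σ ℂ) (P : MvPolynomial σ A) :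
    apA D P = ∑ γ ∈ D.support, algebraMap ℂ A (fac γ * coeff γ D) * coeff γ P := by
  rw [apA, LinearMap.sum_apply]
  rfl

theorem apA_eq (D P : MvPolynomial σ ℂ) : apA D P = ap D P := by
  rw [apA_apply]
  conv_rhs => rw [D.as_sum, map_sum, LinearMap.sum_apply]
  refine Finset.sum_congr rfl fun γ _ => ?_
  rw [ap_monomial]
  simp only [Algebra.algebraMap_self, RingHom.id_apply]
  ring

theorem map_apA (φ : A →ₐ[ℂ] B) (D : MvPolynomial σ ℂ) (P : MvPolynomial σ A) :
    φ (apA D P) = apA D (map φ.toRingHom P) := by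
  rw [apA_apply, apA_apply, map_sum]
  refine Finset.sum_congr rfl fun γ _ => ?_
  rw [map_mul, AlgHom.commutes, coeff_map]
  rfl

end functional

section value

variable {q : ℕ} {A B : Type*} [CommRing A] [CommRing B] [Algebra ℂ A] [Algebra ℂ B]

/-- The indices of the family. -/
abbrev Ix (q : ℕ) : Type := (Fin q × Fin q →₀ ℕ) × (Fin q × Fin q →₀ ℕ)

/-- The value of the covariant. -/
noncomputable def val (l : Fin q → ℕ) (s : ℕ) (Q : MvPolynomial (Ix q) ℂ)
    (f : MvPolynomial (Fin q × Fin q) A) (x : Matrix (Fin q) (Fin q) A) : A :=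
  apA (dt (Fin q) ^ s) (aeval (PA l f x) Q)

theorem map_genA (φ : A →+* B) (q : ℕ) : (genA A q).map (map φ) = genA B q := by
  ext i j
  simp [genA]

theorem map_PA (φ : A →+* B) (l : Fin q → ℕ) (f : MvPolynomial (Fin q × Fin q) A)
    (x : Matrix (Fin q) (Fin q) A) (z : Ix q) :
    map φ (PA l f x z) = PA l (map φ f) (x.map φ) z := by
  rw [PA, PA, map_mul]
  congr 1
  · have hC : (map φ).comp C = (C : B →+* MvPolynomial (Fin q × Fin q) B).comp φ := by
      ext c
      simp
    rw [cfA, cfA, ← coeff_map, map_sm, map_map, map_map, map_genA, hC]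
  · rw [hA, hA, ← coeff_map, map_hf, Matrix.map_mul]
    congr 3
    · have h4 := RingHom.map_adjugate (map φ) (genA A q)
      rw [RingHom.mapMatrix_apply, RingHom.mapMatrix_apply, map_genA] at h4
      exact h4
    · ext i j
      simp

theorem map_val (φ : A →ₐ[ℂ] B) (l : Fin q → ℕ) (s : ℕ) (Q : MvPolynomial (Ix q) ℂ)
    (f : MvPolynomial (Fin q × Fin q) A) (x : Matrix (Fin q) (Fin q) A) :
    φ (val l s Q f x) = val l s Q (map φ.toRingHom f) (x.map φ) := by
  rw [val, map_apA, val]
  congr 1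
  have h1 : map φ.toRingHom (aeval (PA l f x) Q) = (MvPolynomial.mapAlgHom φ) (aeval (PA l f x) Q) := rfl
  rw [h1, ← AlgHom.comp_apply, comp_aeval]
  congr 2
  funext z
  have h2 := map_PA φ.toRingHom l f x z
  exact h2

/-- Scaling `f`. -/
theorem PA_smul (l : Fin q → ℕ) (c : A) (f : MvPolynomial (Fin q × Fin q) A)
    (x : Matrix (Fin q) (Fin q) A) (z : Ix q) : PA l (C c * f) x z = PA l f x z * C c := by
  rw [PA, PA, cfA, cfA]
  simp only [map_mul, map_C, sm_C, coeff_C_mul]
  ring

theorem val_smul (l : Fin q → ℕ) (s : ℕ) {Q : MvPolynomial (Ix q) ℂ} {N : ℕ}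
    (hQ : Q.IsHomogeneous N) (c : A) (f : MvPolynomial (Fin q × Fin q) A)
    (x : Matrix (Fin q) (Fin q) A) : val l s Q (C c * f) x = c ^ N * val l s Q f x := by
  have h1 : PA l (C c * f) x = fun z => PA l f x z * C c := funext fun z => PA_smul l c f x z
  rw [val, h1, aeval_mul_of_homogeneous _ _ hQ, ← C_pow, mul_comm, ← smul_eq_C_mul, map_smul, val,
    smul_eq_mul]

/-- Changing `x` so that the family is multiplied by a scalar. -/
theorem val_of_hf (l : Fin q → ℕ) (s : ℕ) {Q : MvPolynomial (Ix q) ℂ} {N : ℕ}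
    (hQ : Q.IsHomogeneous N) (c : A) (f : MvPolynomial (Fin q × Fin q) A)
    (x x' : Matrix (Fin q) (Fin q) A)
    (h : hf l ((genA A q).adjugate * x'.map C) = C (C c) * hf l ((genA A q).adjugate * x.map C)) :
    val l s Q f x' = c ^ N * val l s Q f x := by
  have h1 : PA l f x' = fun z => PA l f x z * C c := by
    funext z
    rw [PA, PA, hA, hA, h, coeff_C_mul]
    ring
  rw [val, h1, aeval_mul_of_homogeneous _ _ hQ, ← C_pow, mul_comm, ← smul_eq_C_mul, map_smul, val,
    smul_eq_mul]

end value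

section minors

variable {q : ℕ} {A : Type*} [CommRing A]

theorem mnr_scale (g : Matrix (Fin q) (Fin q) A) (w : Fin q → Fin q) (k : ℕ) (j : Fin q) (t : A) :
    mnr (g.updateCol j fun i => t * g i j) w k = (if (j : ℕ) < k then t else 1) * mnr g w k := by
  have h0 : (∏ l : {i : Fin q // (i : ℕ) < k}, if (l : Fin q) = j then t else 1)
      = if (j : ℕ) < k then t else 1 := by
    by_cases h : (j : ℕ) < k
    · rw [if_pos h, Finset.prod_eq_single ⟨j, h⟩]
      · rw [if_pos rfl]
      · intro l _ hl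
        exact if_neg fun e => hl (Subtype.ext e)
      · intro h
        exact absurd (Finset.mem_univ _) h
    · rw [if_neg h]
      refine Finset.prod_eq_one fun l _ => if_neg fun e => h (by rw [← e]; exact l.2)
  rw [mnr, mnr, ← h0, ← Matrix.det_mul_row]
  congr 1
  ext i l
  simp only [Matrix.of_apply, Matrix.updateCol_apply]
  by_cases h : (l : Fin q) = j
  · rw [if_pos h, if_pos h, h]
  · rw [if_neg h, if_neg h, one_mul]

theorem mnr_shear (g : Matrix (Fin q) (Fin q) A) (w : Fin q → Fin q) (k : ℕ) {j l : Fin q}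
    (t : A) (hjl : j ≠ l) (h : (l : ℕ) < k → (j : ℕ) < k) :
    mnr (g.updateCol l fun i => g i l + t * g i j) w k = mnr g w k := by
  by_cases hl : (l : ℕ) < k
  · have h1 := Matrix.det_updateCol_add_smul_self
      (Matrix.of fun i j : {i : Fin q // (i : ℕ) < k} => g (w i) j)
      (i := ⟨l, hl⟩) (j := ⟨j, h hl⟩) (fun e => hjl (congrArg Subtype.val e).symm) t
    rw [mnr, mnr, ← h1]
    congr 1
    ext i s
    simp only [Matrix.of_apply, Matrix.updateCol_apply, smul_eq_mul]
    by_cases hs : (s : Fin q) = l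
    · rw [if_pos hs, if_pos (Subtype.ext hs)]
    · rw [if_neg hs, if_neg fun e => hs (congrArg Subtype.val e)]
  · rw [mnr, mnr]
    congr 1
    ext i s
    have hs : (s : Fin q) ≠ l := fun e => hl (by rw [← e]; exact s.2)
    simp only [Matrix.of_apply, Matrix.updateCol_apply]
    rw [if_neg hs]

theorem prr_scale {l : Fin q → ℕ} (hl : Antitone l) (g : Matrix (Fin q) (Fin q) A)
    (w : Fin q → Fin q) (j : Fin q) (t : A) :
    prr (g.updateCol j fun i => t * g i j) w l = t ^ l j * prr g w l := by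
  rw [prr, prr, ← prod_ite_pow hl j t, ← Finset.prod_mul_distrib]
  refine Finset.prod_congr rfl fun k _ => ?_
  rw [mnr_scale, mul_pow]

theorem prr_shear {b : Fin q → ℕ} (hb : Monotone b) {l : Fin q → ℕ}
    (hlb : ∀ i j, b i = b j → l i = l j) (g : Matrix (Fin q) (Fin q) A) (w : Fin q → Fin q)
    (j k : Fin q) (t : A) (hjk : j ≠ k) (hbjk : b j ≤ b k) :
    prr (g.updateCol k fun i => g i k + t * g i j) w l = prr g w l := by
  rw [prr, prr]
  refine Finset.prod_congr rfl fun s hs => ?_
  by_cases he : Q47.FL.ex l s - Q47.FL.ex l (s + 1) = 0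
  · rw [he, pow_zero, pow_zero]
  rw [mnr_shear g w (s + 1) t hjk]
  intro hk
  by_contra hj
  have hsq := Finset.mem_range.1 hs
  have hs1 : s + 1 < q := by
    have := j.2
    omega
  have h1 : b k ≤ b ⟨s, hsq⟩ := hb (by rw [Fin.le_def]; simpa using Nat.lt_succ_iff.1 hk)
  have h2 : b ⟨s + 1, hs1⟩ ≤ b j := hb (by rw [Fin.le_def]; simpa using hj)
  have h3 : b ⟨s, hsq⟩ ≤ b ⟨s + 1, hs1⟩ := hb (by simp [Fin.le_def])
  have h4 : b ⟨s, hsq⟩ = b ⟨s + 1, hs1⟩ := by omega
  apply he
  rw [Q47.FL.ex, Q47.FL.ex, dif_pos hsq, dif_pos hs1, hlb _ _ h4, Nat.sub_self]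

/-- The product of the generic matrix, the adjugate of the generic matrix and `x`. -/
noncomputable def kz (x : Matrix (Fin q) (Fin q) A) :
    Matrix (Fin q) (Fin q) (MvPolynomial (Fin q × Fin q) (MvPolynomial (Fin q × Fin q) A)) :=
  genA (MvPolynomial (Fin q × Fin q) A) q * ((genA A q).adjugate * x.map C).map C

theorem hf_kz (l : Fin q → ℕ) (x : Matrix (Fin q) (Fin q) A) :
    hf l ((genA A q).adjugate * x.map C) = prr (kz x) id l := rfl

theorem kz_apply (x : Matrix (Fin q) (Fin q) A) (i k : Fin q) :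
    kz x i k = ∑ a, genA (MvPolynomial (Fin q × Fin q) A) q i a *
      C (∑ c, (genA A q).adjugate a c * C (x c k)) := by
  rw [kz, Matrix.mul_apply]
  refine Finset.sum_congr rfl fun a _ => ?_
  rw [Matrix.map_apply, Matrix.mul_apply]
  rfl

theorem kz_scale (x : Matrix (Fin q) (Fin q) A) (j : Fin q) (t : A) :
    kz (x.updateCol j fun i => t * x i j) = (kz x).updateCol j fun i => C (C t) * kz x i j := by
  ext1 i k
  rw [Matrix.updateCol_apply, kz_apply, kz_apply, kz_apply]
  by_cases hk : k = j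
  · rw [if_pos hk, Finset.mul_sum]
    refine Finset.sum_congr rfl fun a _ => ?_
    rw [map_sum, map_sum, Finset.mul_sum, Finset.mul_sum, Finset.mul_sum]
    refine Finset.sum_congr rfl fun c _ => ?_
    rw [Matrix.updateCol_apply, if_pos hk]
    simp only [map_mul]
    ring
  · rw [if_neg hk]
    refine Finset.sum_congr rfl fun a _ => ?_
    congr 2
    refine Finset.sum_congr rfl fun c _ => ?_
    rw [Matrix.updateCol_apply, if_neg hk]

theorem kz_shear (x : Matrix (Fin q) (Fin q) A) (j k : Fin q) (t : A) :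
    kz (x.updateCol k fun i => x i k + t * x i j) =
      (kz x).updateCol k fun i => kz x i k + C (C t) * kz x i j := by
  ext1 i l
  rw [Matrix.updateCol_apply, kz_apply, kz_apply, kz_apply, kz_apply]
  by_cases hl : l = k
  · rw [if_pos hl, Finset.mul_sum, ← Finset.sum_add_distrib]
    refine Finset.sum_congr rfl fun a _ => ?_
    rw [map_sum, map_sum, map_sum, Finset.mul_sum, Finset.mul_sum, Finset.mul_sum, Finset.mul_sum,
      ← Finset.sum_add_distrib]
    refine Finset.sum_congr rfl fun c _ => ?_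
    rw [Matrix.updateCol_apply, if_pos hl]
    simp only [map_mul, map_add]
    ring
  · rw [if_neg hl]
    refine Finset.sum_congr rfl fun a _ => ?_
    congr 2
    refine Finset.sum_congr rfl fun c _ => ?_
    rw [Matrix.updateCol_apply, if_neg hl]

variable [Algebra ℂ A]

theorem val_scale {l : Fin q → ℕ} (hl : Antitone l) (s : ℕ) {Q : MvPolynomial (Ix q) ℂ} {N : ℕ}
    (hQ : Q.IsHomogeneous N) (f : MvPolynomial (Fin q × Fin q) A) (x : Matrix (Fin q) (Fin q) A)
    (j : Fin q) (t : A) :
    val l s Q f (x.updateCol j fun i => t * x i j) = (t ^ l j) ^ N * val l s Q f x := by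
  apply val_of_hf l s hQ
  rw [hf_kz, hf_kz, kz_scale, prr_scale hl, map_pow, map_pow]

theorem val_shear {b : Fin q → ℕ} (hb : Monotone b) {l : Fin q → ℕ}
    (hlb : ∀ i j, b i = b j → l i = l j) (s : ℕ) {Q : MvPolynomial (Ix q) ℂ} {N : ℕ}
    (hQ : Q.IsHomogeneous N) (f : MvPolynomial (Fin q × Fin q) A) (x : Matrix (Fin q) (Fin q) A)
    (j k : Fin q) (t : A) (hjk : j ≠ k) (hbjk : b j ≤ b k) :
    val l s Q f (x.updateCol k fun i => x i k + t * x i j) = val l s Q f x := by
  have h2 := val_of_hf l s hQ 1 f x (x.updateCol k fun i => x i k + t * x i j) (by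
    rw [hf_kz, hf_kz, kz_shear, prr_shear hb hlb _ _ _ _ _ hjk hbjk, map_one, map_one, one_mul])
  rw [h2, one_pow, one_mul]

end minors

end H18.GIT
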