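import Pool.Graph.R_pool_sql_team_seeded_3997aac3.Q47.FL.Defs

/-!
# Bundles of flag varieties over complex manifolds, pairs and pluricanonical sections

Let `B` be a complex manifold of dimension `n` and let the weakly increasing function
`b : Fin q → ℕ` describe a type of partial flags in `ℂ^q`: the number of the `j` with `b j ≤ l` is the
dimension of the `l`-th member `F_l` of the flag. The flag variety is `GL_q / P`, where the group `P`
of all invertible `p` with `p_{ij} = 0` for `b j < b i` acts from the right; the point `g P` is the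
flag whose member `F_l` is spanned by the columns `j` of the matrix `g` with `b j ≤ l`. (For
`b = (0, 1, ..., 1)` it is the projective space of lines in `ℂ^q`, for `b = (0, ..., 0, 1, ..., 1)` a
Grassmannian.) The semi-invariant polynomials `IsSemiInvariant b d` on the `q × q` matrices are the
sections of the line bundle `O(d)` on `GL_q / P`, and `O(-anti b)` is the canonical bundle of
`GL_q / P`; log canonical pairs `IsLogCanonical b m f` and nef line bundles `IsFibreNef b l` on
`GL_q / P` are as in `Q47.FL.Defs`.
-/

set_option autoImplicit false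

namespace H18.GIT

open MvPolynomial Q47.FL
open scoped Manifold ContDiff

universe u v

variable {n : ℕ} {B : Type u} [TopologicalSpace B] [ChartedSpace (Fin n → ℂ) B]

/-- The function `f` is holomorphic on the open set `U` of the complex manifold `B`. -/
def Holo (U : Set B) (f : B → ℂ) : Prop := ContMDiffOn 𝓘(ℂ, Fin n → ℂ) 𝓘(ℂ) ω f U

/-- The Jacobian determinant at the point `p` of `B` of the coordinates `φ` with respect to the
coordinates `ψ`: `dφ_1 ∧ ... ∧ dφ_n = jac φ ψ p • dψ_1 ∧ ... ∧ dψ_n`. -/
noncomputable def jac (φ ψ : OpenPartialHomeomorph B (Fin n → ℂ)) (p : B) : ℂ :=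
  LinearMap.det (fderiv ℂ (φ ∘ ψ.symm) (ψ p) : (Fin n → ℂ) →ₗ[ℂ] (Fin n → ℂ))

variable (n) (B)

/-- A holomorphic bundle `Y → B` of flag varieties: it is given by an open covering of the complex
manifold `B` by the domains `U i` of charts and by holomorphic matrices `A i j` on `U i ∩ U j`, which
satisfy the cocycle condition up to scalars (so the structure group is `PGL_q`). The total space `Y`
is obtained from the products `U i × GL_q / P`; the point `(p, g P)` of the `j`-th product is
identified with the point `(p, A i j p * g P)` of the `i`-th product. If the `A i j` satisfy the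
cocycle condition, then they define a vector bundle `E` of rank `q` on `B`, and `Y` is the bundle of
flags in the fibres of `E`. -/
structure FlagBundle (q : ℕ) (ι : Type v) where
  chart : ι → OpenPartialHomeomorph B (Fin n → ℂ)
  mem_atlas : ∀ i, chart i ∈ atlas (Fin n → ℂ) B
  cover : ∀ p : B, ∃ i, p ∈ (chart i).source
  A : ι → ι → B → Matrix (Fin q) (Fin q) ℂ
  holo : ∀ i j k l, Holo (n := n) ((chart i).source ∩ (chart j).source) fun p => A i j p k l
  det_ne_zero : ∀ i j, ∀ p ∈ (chart i).source ∩ (chart j).source, (A i j p).det ≠ 0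
  cocycle : ∀ i j k, ∀ p ∈ (chart i).source ∩ (chart j).source ∩ (chart k).source,
    ∃ c : ℂ, c ≠ 0 ∧ A i j p * A j k p = c • A i k p

variable {n} {B}

namespace FlagBundle

variable {q : ℕ} {ι : Type v} (Y : FlagBundle n B q ι)

/-- The open set `U i` of the covering. -/
def U (i : ι) : Set B := (Y.chart i).source

/-- The polynomials `F i p` and the functions `e i j` define an effective divisor `m Δ` on `Y`, of
the class of the weight `d` on the fibres: it is given on the `i`-th product `U i × GL_q / P` by the
semi-invariant polynomial `F i p` in the entries of `g`, whose coefficients are holomorphic functions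
of `p`, and `F i p (A i j p * g) = e i j p * F j p g`. -/
structure IsDivisor (b : Fin q → ℕ) (d : ℕ → ℕ) (F : ι → B → MvPolynomial (Fin q × Fin q) ℂ)
    (e : ι → ι → B → ℂ) : Prop where
  holo : ∀ i α, Holo (n := n) (Y.U i) fun p => coeff α (F i p)
  semi : ∀ i, ∀ p ∈ Y.U i, IsSemiInvariant b d (F i p)
  holo_e : ∀ i j, Holo (n := n) (Y.U i ∩ Y.U j) (e i j)
  e_ne_zero : ∀ i j, ∀ p ∈ Y.U i ∩ Y.U j, e i j p ≠ 0
  eq : ∀ i j, ∀ p ∈ Y.U i ∩ Y.U j, ∀ g : Matrix (Fin q) (Fin q) ℂ,
    ev (Y.A i j p * g) (F i p) = e i j p * ev g (F j p)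

/-- The polynomials `G i p` define a global section of the line bundle
`O_Y(N m (K_{Y/B} + Δ))` on `Y`, where `m Δ` is the divisor which is given by `F` and `e` (see
`IsDivisor`): the coefficients of `G i p` are holomorphic in `p`, the polynomial `G i p` is
semi-invariant of the weight `N (d - m anti)`, and `G i p (A i j p * g) = (e i j p) ^ N * G j p g`.
(Then the relative `N m`-canonical forms `G i p (ω ^ m / F i p) ^ N` agree, where `ω` is the left
invariant form on `GL_q` with values in the canonical bundle of `GL_q / P`.) -/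
structure IsRelativeSection (b : Fin q → ℕ) (m : ℕ) (d : ℕ → ℕ) (e : ι → ι → B → ℂ) (N : ℕ)
    (G : ι → B → MvPolynomial (Fin q × Fin q) ℂ) : Prop where
  holo : ∀ i α, Holo (n := n) (Y.U i) fun p => coeff α (G i p)
  semi : ∃ d' : ℕ → ℕ, (∀ j, (d' (b j) : ℤ) = N * (d (b j) - m * anti b j)) ∧
    ∀ i, ∀ p ∈ Y.U i, IsSemiInvariant b d' (G i p)
  eq : ∀ i j, ∀ p ∈ Y.U i ∩ Y.U j, ∀ g : Matrix (Fin q) (Fin q) ℂ,
    ev (Y.A i j p * g) (G i p) = e i j p ^ N * ev g (G j p)

/-- The polynomials `G i p` define a global section of the line bundle `O_Y(N m (K_Y + Δ))` on `Y`,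
where `m Δ` is the divisor which is given by `F` and `e`: as in `IsRelativeSection`, but with the
Jacobian determinants of the coordinates of `B`. (The `N m`-canonical forms
`G i p ((dz_i ∧ ω) ^ m / F i p) ^ N` agree, where `dz_i` is the product of the differentials of the
coordinates `chart i`.) -/
structure IsLogPluricanonicalSection (b : Fin q → ℕ) (m : ℕ) (d : ℕ → ℕ) (e : ι → ι → B → ℂ) (N : ℕ)
    (G : ι → B → MvPolynomial (Fin q × Fin q) ℂ) : Prop where
  holo : ∀ i α, Holo (n := n) (Y.U i) fun p => coeff α (G i p)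
  semi : ∃ d' : ℕ → ℕ, (∀ j, (d' (b j) : ℤ) = N * (d (b j) - m * anti b j)) ∧
    ∀ i, ∀ p ∈ Y.U i, IsSemiInvariant b d' (G i p)
  eq : ∀ i j, ∀ p ∈ Y.U i ∩ Y.U j, ∀ g : Matrix (Fin q) (Fin q) ℂ,
    ev (Y.A i j p * g) (G i p) * jac (Y.chart i) (Y.chart j) p ^ (N * m) =
      e i j p ^ N * ev g (G j p)

/-- The functions `s i` define a global section of the `N`-th power of the canonical bundle `K_B`:
the `N`-canonical forms `s i (dz_i) ^ N` agree. -/
structure IsPluricanonicalForm (N : ℕ) (s : ι → B → ℂ) : Prop where
  holo : ∀ i, Holo (n := n) (Y.U i) (s i)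
  eq : ∀ i j, ∀ p ∈ Y.U i ∩ Y.U j, s i p * jac (Y.chart i) (Y.chart j) p ^ N = s j p

end FlagBundle

end H18.GIT
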