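import Pool.Agent.H18.GIT.Apolar
import Pool.Graph.R_pool_sql_team_seeded_3997aac3.Q47.FL.Minor

/-!
# Left multiplication of matrix variables, nested minors
-/

set_option autoImplicit false
set_option linter.unusedSectionVars false

namespace H18.GIT

open MvPolynomial

section subst

variable {n : Type*} [Fintype n] {R S : Type*} [CommRing R] [CommRing S]

/-- The polynomial `f (g y)` in the entries of the matrix `y`. -/
noncomputable def sm (g : Matrix n n R) : MvPolynomial (n × n) R →ₐ[R] MvPolynomial (n × n) R :=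
  aeval fun x => ∑ k, C (g x.1 k) * X (k, x.2)

theorem sm_X (g : Matrix n n R) (x : n × n) : sm g (X x) = ∑ k, C (g x.1 k) * X (k, x.2) := by
  rw [sm, aeval_X]

theorem sm_C (g : Matrix n n R) (c : R) : sm g (C c) = C c := by
  rw [sm, aeval_C]
  rfl

theorem sm_eq_lt [DecidableEq n] (g : Matrix n n ℂ) (f : MvPolynomial (n × n) ℂ) : sm g f = lt g f := rfl

theorem eval_sm (g : Matrix n n R) (f : MvPolynomial (n × n) R) (y : Matrix n n R) :
    eval (fun x => y x.1 x.2) (sm g f) = eval (fun x => (g * y) x.1 x.2) f := by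
  have h1 : (eval fun x : n × n => y x.1 x.2).comp (sm g).toRingHom =
      eval fun x : n × n => (g * y) x.1 x.2 := by
    apply MvPolynomial.ringHom_ext
    · intro c
      rw [RingHom.comp_apply]
      change eval _ (sm g (C c)) = _
      rw [sm_C, eval_C, eval_C]
    · intro x
      rw [RingHom.comp_apply]
      change eval _ (sm g (X x)) = _
      rw [sm_X, map_sum, eval_X, Matrix.mul_apply]
      exact Finset.sum_congr rfl fun k _ => by rw [map_mul, eval_C, eval_X]
  exact congrArg (fun φ : MvPolynomial (n × n) R →+* R => φ f) h1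

theorem sm_sm (g h : Matrix n n R) (f : MvPolynomial (n × n) R) : sm h (sm g f) = sm (g * h) f := by
  have h1 : (sm h).comp (sm g) = sm (g * h) := by
    apply MvPolynomial.algHom_ext
    intro x
    rw [AlgHom.comp_apply, sm_X, sm_X, map_sum]
    simp only [map_mul, sm_C, sm_X, Finset.mul_sum]
    rw [Finset.sum_comm]
    refine Finset.sum_congr rfl fun k _ => ?_
    rw [Matrix.mul_apply, map_sum, Finset.sum_mul]
    refine Finset.sum_congr rfl fun l _ => ?_
    rw [map_mul]
    ring
  exact congrArg (fun φ : MvPolynomial (n × n) R →ₐ[R] MvPolynomial (n × n) R => φ f) h1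

theorem map_sm (θ : R →+* S) (g : Matrix n n R) (f : MvPolynomial (n × n) R) :
    map θ (sm g f) = sm (g.map θ) (map θ f) := by
  have h1 : (map θ).comp (sm g).toRingHom = (sm (g.map θ)).toRingHom.comp (map θ) := by
    apply MvPolynomial.ringHom_ext
    · intro c
      rw [RingHom.comp_apply, RingHom.comp_apply]
      change map θ (sm g (C c)) = sm (g.map θ) (map θ (C c))
      rw [sm_C, map_C, sm_C]
    · intro x
      rw [RingHom.comp_apply, RingHom.comp_apply]
      change map θ (sm g (X x)) = sm (g.map θ) (map θ (X x))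
      rw [sm_X, map_X, sm_X, map_sum]
      exact Finset.sum_congr rfl fun k _ => by rw [map_mul, map_C, map_X]; rfl
  exact congrArg (fun φ : MvPolynomial (n × n) R →+* MvPolynomial (n × n) S => φ f) h1

theorem sm_diagonal [DecidableEq n] (t : n → R) (f : MvPolynomial (n × n) R) (α : n × n →₀ ℕ) :
    coeff α (sm (Matrix.diagonal t) f) = (∏ x, t x.1 ^ α x) * coeff α f := by
  have h1 : ∀ x, sm (Matrix.diagonal t) (X x : MvPolynomial (n × n) R) = C (t x.1) * X x := by
    intro x
    rw [sm_X, Finset.sum_eq_single x.1]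
    · rw [Matrix.diagonal_apply_eq]
    · intro k _ hk
      rw [Matrix.diagonal_apply_ne _ hk.symm, C_0, zero_mul]
    · intro h
      exact absurd (Finset.mem_univ _) h
  induction f using MvPolynomial.induction_on' with
  | monomial β c =>
    have h2 : sm (Matrix.diagonal t) (monomial β c) = monomial β (c * ∏ x, t x.1 ^ β x) := by
      rw [monomial_eq, map_mul, sm_C, Finsupp.prod, map_prod]
      simp only [map_pow, h1, mul_pow]
      rw [Finset.prod_mul_distrib, ← mul_assoc, monomial_eq, Finsupp.prod]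
      congr 1
      rw [map_mul, map_prod]
      congr 1
      simp only [map_pow]
      refine Finset.prod_subset (Finset.subset_univ _) fun i _ hi => ?_
      rw [Finsupp.notMem_support_iff.1 hi, pow_zero]
    rw [h2, coeff_monomial, coeff_monomial]
    by_cases h : β = α
    · rw [if_pos h, if_pos h, h, mul_comm]
    · rw [if_neg h, if_neg h, mul_zero]
  | add p q hp hq => rw [map_add, coeff_add, hp, hq, coeff_add, mul_add]

end subst

section valuation

variable {n : Type*} [Fintype n] {K : Type*} [Field K] (O : ValuationSubring K)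

theorem sm_lt {k : Matrix n n O} {f : MvPolynomial (n × n) K} {c : O.ValueGroup} (hc : c ≠ 0)
    (hf : ∀ α, O.valuation (coeff α f) < c) (β : n × n →₀ ℕ) :
    O.valuation (coeff β (sm (k.map (fun x => (x : K))) f)) < c := by
  have h1 : sm (k.map (fun x => (x : K))) f =
      ∑ α ∈ f.support, C (coeff α f) * sm (k.map (fun x => (x : K))) (monomial α 1) := by
    conv_lhs => rw [f.as_sum]
    rw [map_sum]
    refine Finset.sum_congr rfl fun α _ => ?_
    rw [← sm_C (k.map (fun x => (x : K))) (coeff α f), ← map_mul, C_mul_monomial, mul_one]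
  rw [h1, coeff_sum]
  apply Valuation.map_sum_lt _ hc
  intro α _
  rw [coeff_C_mul, map_mul]
  have h2 : O.valuation (coeff β (sm (k.map (fun x => (x : K))) (monomial α 1))) ≤ 1 := by
    have h3 : sm (k.map (fun x => (x : K))) (monomial α (1 : K)) =
        map O.subtype (sm k (monomial α 1)) := by
      rw [map_sm, map_monomial]
      rfl
    rw [h3, coeff_map, O.valuation_le_one_iff]
    exact (coeff β (sm k (monomial α 1))).2
  exact (mul_le_of_le_one_right' h2).trans_lt (hf α)

end valuation

section flags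

variable {q : ℕ}

/-- A substitution of the left multiplication preserves semi-invariance. -/
theorem semi_sm {b : Fin q → ℕ} {d : ℕ → ℕ} {f : MvPolynomial (Fin q × Fin q) ℂ}
    (hf : Q47.FL.IsSemiInvariant b d f) (κ : Matrix (Fin q) (Fin q) ℂ) :
    Q47.FL.IsSemiInvariant b d (sm κ f) where
  scale := fun g j t => by
    have h1 := hf.scale (κ * g) j t
    rw [Q47.FL.ev, Q47.FL.ev] at h1 ⊢
    rw [eval_sm, eval_sm, ← h1]
    congr 2
    funext x
    rw [Matrix.mul_apply, Matrix.updateCol_apply]
    by_cases hx : x.2 = j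
    · rw [if_pos hx, Matrix.mul_apply, Finset.mul_sum]
      refine Finset.sum_congr rfl fun k _ => ?_
      rw [Matrix.updateCol_apply, if_pos hx]
      ring
    · rw [if_neg hx, Matrix.mul_apply]
      refine Finset.sum_congr rfl fun k _ => ?_
      rw [Matrix.updateCol_apply, if_neg hx]
  shear := fun g j k t hjk hb => by
    have h1 := hf.shear (κ * g) j k t hjk hb
    rw [Q47.FL.ev, Q47.FL.ev] at h1 ⊢
    rw [eval_sm, eval_sm, ← h1]
    congr 2
    funext x
    rw [Matrix.mul_apply, Matrix.updateCol_apply]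
    by_cases hx : x.2 = k
    · rw [if_pos hx, Matrix.mul_apply, Matrix.mul_apply, Finset.mul_sum, ← Finset.sum_add_distrib]
      refine Finset.sum_congr rfl fun l _ => ?_
      rw [Matrix.updateCol_apply, if_pos hx]
      ring
    · rw [if_neg hx, Matrix.mul_apply]
      refine Finset.sum_congr rfl fun l _ => ?_
      rw [Matrix.updateCol_apply, if_neg hx]

theorem lc_sm {b : Fin q → ℕ} {m : ℕ} {f : MvPolynomial (Fin q × Fin q) ℂ}
    (hf : Q47.FL.IsLogCanonical b m f) {κ : Matrix (Fin q) (Fin q) ℂ} (hκ : κ.det ≠ 0) :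
    Q47.FL.IsLogCanonical b m (sm κ f) := by
  intro g hg c hc
  obtain ⟨r, hr, hfin⟩ := hf (κ * g) (by rw [Matrix.det_mul]; exact mul_ne_zero hκ hg) c hc
  refine ⟨r, hr, ?_⟩
  have h1 : ∀ y : Q47.FL.Low b → ℂ, Q47.FL.ev (Q47.FL.chart b g y) (sm κ f) =
      Q47.FL.ev (Q47.FL.chart b (κ * g) y) f := by
    intro y
    rw [Q47.FL.ev, Q47.FL.ev, eval_sm, Q47.FL.chart, Q47.FL.chart, Matrix.mul_assoc]
  simp only [h1]
  exact hfin

variable {A B : Type*} [CommRing A] [CommRing B]

/-- The minor of the rows `w i`, `i < k`, and of the first `k` columns. -/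
noncomputable def mnr (z : Matrix (Fin q) (Fin q) A) (w : Fin q → Fin q) (k : ℕ) : A :=
  (Matrix.of fun i j : {i : Fin q // (i : ℕ) < k} => z (w i) j).det

theorem mnr_eq (z : Matrix (Fin q) (Fin q) ℂ) (w : Fin q → Fin q) (k : ℕ) :
    mnr z w k = Q47.FL.mnv z w k := rfl

theorem map_mnr (φ : A →+* B) (z : Matrix (Fin q) (Fin q) A) (w : Fin q → Fin q) (k : ℕ) :
    φ (mnr z w k) = mnr (z.map φ) w k := by
  rw [mnr, RingHom.map_det, mnr]
  congr 1

theorem mnr_left (z : Matrix (Fin q) (Fin q) A) (w : Fin q → Fin q) (k : ℕ) (c : Fin q → A) :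
    mnr (Matrix.diagonal c * z) w k
      = (∏ i : {i : Fin q // (i : ℕ) < k}, c (w i)) * mnr z w k := by
  rw [mnr, mnr, ← Matrix.det_mul_column]
  congr 1
  ext i j
  simp only [Matrix.of_apply, Matrix.diagonal_mul]

/-- The product of minors. -/
noncomputable def prr (z : Matrix (Fin q) (Fin q) A) (w : Fin q → Fin q) (l : Fin q → ℕ) : A :=
  ∏ k ∈ Finset.range q, mnr z w (k + 1) ^ (Q47.FL.ex l k - Q47.FL.ex l (k + 1))

theorem prr_eq (z : Matrix (Fin q) (Fin q) ℂ) (w : Fin q → Fin q) (l : Fin q → ℕ) :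
    prr z w l = Q47.FL.ev z (Q47.FL.pr w l) := by
  rw [Q47.FL.ev_pr]
  rfl

theorem map_prr (φ : A →+* B) (z : Matrix (Fin q) (Fin q) A) (w : Fin q → Fin q) (l : Fin q → ℕ) :
    φ (prr z w l) = prr (z.map φ) w l := by
  rw [prr, map_prod, prr]
  exact Finset.prod_congr rfl fun k _ => by rw [map_pow, map_mnr]

theorem prod_ite_pow {l : Fin q → ℕ} (hl : Antitone l) (j : Fin q) (t : A) :
    (∏ k ∈ Finset.range q, (if (j : ℕ) < k + 1 then t else 1) ^
      (Q47.FL.ex l k - Q47.FL.ex l (k + 1))) = t ^ l j := by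
  rw [← Q47.FL.tele hl j, ← Finset.prod_pow_eq_pow_sum]
  refine Finset.prod_congr rfl fun k _ => ?_
  split_ifs
  · rfl
  · rw [one_pow, pow_zero]

theorem prr_left {l : Fin q → ℕ} (hl : Antitone l) (w : Fin q → Fin q) (c : Fin q → A)
    (z : Matrix (Fin q) (Fin q) A) :
    prr (Matrix.diagonal c * z) w l = (∏ j, c (w j) ^ l j) * prr z w l := by
  rw [prr, prr]
  have h1 : ∏ j, c (w j) ^ l j = ∏ k ∈ Finset.range q,
      (∏ i : {i : Fin q // (i : ℕ) < k + 1}, c (w i)) ^ (Q47.FL.ex l k - Q47.FL.ex l (k + 1)) := by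
    have h2 : ∀ j, c (w j) ^ l j = ∏ k ∈ Finset.range q,
        (if (j : ℕ) < k + 1 then c (w j) else 1) ^ (Q47.FL.ex l k - Q47.FL.ex l (k + 1)) :=
      fun j => (prod_ite_pow hl j _).symm
    simp only [h2]
    rw [Finset.prod_comm]
    refine Finset.prod_congr rfl fun k _ => ?_
    rw [Finset.prod_pow]
    congr 1
    rw [← Finset.prod_filter]
    exact Finset.prod_subtype _ (fun x => by simp) _
  rw [h1, ← Finset.prod_mul_distrib]
  refine Finset.prod_congr rfl fun k _ => ?_
  rw [mnr_left, mul_pow]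

theorem prr_smul {l : Fin q → ℕ} (hl : Antitone l) (w : Fin q → Fin q) (c : A)
    (z : Matrix (Fin q) (Fin q) A) :
    prr (c • z) w l = c ^ (∑ j, l j) * prr z w l := by
  have h1 : c • z = Matrix.diagonal (fun _ => c) * z := by
    ext i j
    rw [Matrix.diagonal_mul, Matrix.smul_apply, smul_eq_mul]
  rw [h1, prr_left hl, Finset.prod_pow_eq_pow_sum]

theorem prr_perm (w : Equiv.Perm (Fin q)) (l : Fin q → ℕ) (z : Matrix (Fin q) (Fin q) A) :
    prr (z.submatrix w id) id l = prr z w l := rfl

/-- The generic matrix over a ring. -/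
noncomputable def genA (A : Type*) [CommRing A] (q : ℕ) :
    Matrix (Fin q) (Fin q) (MvPolynomial (Fin q × Fin q) A) := Matrix.of fun i j => X (i, j)

/-- The family of the semi-invariants of `z` which are the coefficients of the products of the
leading minors of `k z`, as a polynomial in the entries of `k`. -/
noncomputable def hf (l : Fin q → ℕ) (z : Matrix (Fin q) (Fin q) A) : MvPolynomial (Fin q × Fin q) A :=
  prr (genA A q * z.map C) id l

theorem eval_hf (l : Fin q → ℕ) (z k : Matrix (Fin q) (Fin q) A) :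
    eval (fun x => k x.1 x.2) (hf l z) = prr (k * z) id l := by
  rw [hf, map_prr]
  congr 1
  rw [Matrix.map_mul]
  congr 1
  · ext i j
    simp [genA]
  · ext i j
    simp

theorem map_hf (φ : A →+* B) (l : Fin q → ℕ) (z : Matrix (Fin q) (Fin q) A) :
    map φ (hf l z) = hf l (z.map φ) := by
  rw [hf, map_prr, hf]
  congr 1
  rw [Matrix.map_mul]
  congr 1
  · ext i j
    simp [genA]
  · ext i j
    simp

theorem hf_smul {l : Fin q → ℕ} (hl : Antitone l) (c : A) (z : Matrix (Fin q) (Fin q) A) :
    hf l (c • z) = C (c ^ ∑ j, l j) * hf l z := by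
  rw [hf, hf, map_pow, ← prr_smul hl]
  congr 1
  ext i j
  rw [Matrix.mul_apply, Matrix.smul_apply, Matrix.mul_apply, smul_eq_mul, Finset.mul_sum, coeff_sum,
    coeff_sum]
  refine Finset.sum_congr rfl fun k _ => ?_
  congr 1
  rw [Matrix.map_apply, Matrix.smul_apply, smul_eq_mul, map_mul, Matrix.map_apply]
  ring

end flags

end H18.GIT
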