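import Pool.Graph.R_pool_sql_team_seeded_3997aac3.Q47.TB.Hull

/-!
# Integral weights from the values of a valuation
-/

set_option autoImplicit false
set_option linter.unusedSectionVars false

namespace H18.GIT

theorem prod_zpow_sum {G ι : Type*} [CommGroup G] (s : Finset ι) (a : G) (f : ι → ℤ) :
    ∏ i ∈ s, a ^ f i = a ^ ∑ i ∈ s, f i := by
  classical
  induction s using Finset.induction_on with
  | empty => simp
  | insert i s hi ih => rw [Finset.prod_insert hi, Finset.sum_insert hi, zpow_add, ih]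

/-- Finitely many strict inequalities for elements of an ordered group can be realised by integers. -/
theorem gordan {G : Type*} [CommGroup G] [LinearOrder G] [IsOrderedMonoid G] {N : ℕ} (θ : Fin N → G)
    {J : Type*} [Finite J] [Nonempty J] (q : J → Fin N → ℤ) (h : ∀ j, 1 < ∏ k, θ k ^ q j k) :
    ∃ w : Fin N → ℤ, ∀ j, 0 < ∑ k, q j k * w k := by
  apply Q47.TB.sep_of_not_hull
  intro h0
  obtain ⟨r, g, b, hb, hz⟩ := Q47.TB.int_of_hull q h0
  have h1 : ∏ k, (∏ l, θ l ^ q (g k) l) ^ b k = 1 := by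
    have h2 : ∀ k, (∏ l, θ l ^ q (g k) l) ^ b k = ∏ l, θ l ^ ((b k : ℤ) * q (g k) l) := by
      intro k
      rw [← Finset.prod_pow]
      refine Finset.prod_congr rfl fun l _ => ?_
      rw [← zpow_natCast, ← zpow_mul, mul_comm]
    simp only [h2]
    rw [Finset.prod_comm]
    refine Finset.prod_eq_one fun l _ => ?_
    rw [prod_zpow_sum, hz l, zpow_zero]
  obtain ⟨k₀, -, hk₀⟩ : ∃ k ∈ Finset.univ, b k ≠ 0 := by
    by_contra hcon
    push Not at hcon
    rw [Finset.sum_eq_zero hcon] at hb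
    omega
  have h2 : 1 < ∏ k, (∏ l, θ l ^ q (g k) l) ^ b k := by
    apply Finset.one_lt_prod' (fun k _ => one_le_pow_of_one_le' (h (g k)).le _)
    exact ⟨k₀, Finset.mem_univ _, one_lt_pow' (h (g k₀)) hk₀⟩
  rw [h1] at h2
  exact lt_irrefl _ h2

theorem exists_weights {G : Type*} [LinearOrderedCommGroupWithZero G] {n : Type*} [Fintype n]
    (T : n → G) (hT0 : ∀ i, T i ≠ 0) (hT1 : ∀ i, T i ≤ 1) (i₀ : n) (hi₀ : T i₀ = 1) (m : ℕ)
    (S : Finset (n →₀ ℕ)) (hS : S.Nonempty) (h : ∀ α ∈ S, ∏ i, T i ^ α i < ∏ i, T i ^ m) :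
    ∃ a : n → ℕ, a i₀ = 0 ∧ ∀ α ∈ S, m * ∑ i, a i < ∑ i, a i * α i := by
  classical
  let u : n → Gˣ := fun i => Units.mk0 (T i) (hT0 i)
  have hu : ∀ i, u i ≤ 1 := fun i => by
    rw [← Units.val_le_val]
    exact hT1 i
  let Θ : Finset Gˣ := (Finset.univ.image u).erase 1
  let e : Fin (Fintype.card Θ) ≃ Θ := (Fintype.equivFin Θ).symm
  have hne : Nonempty S := hS.to_subtype
  have hΘ : ∀ i, u i ≠ 1 → u i ∈ Θ := fun i hi =>
    Finset.mem_erase.2 ⟨hi, Finset.mem_image_of_mem _ (Finset.mem_univ i)⟩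
  let q : S ⊕ Θ → Fin (Fintype.card Θ) → ℤ := Sum.elim
    (fun α k => ∑ i, if u i = (e k : Gˣ) then ((α.1 i : ℤ) - m) else 0)
    (fun θ k => if e k = θ then 1 else 0)
  -- a sum over the values
  have hsum : ∀ (i : n) (x : ℤ) (f : Gˣ → ℤ), f 1 = 0 →
      ∑ k, (if u i = (e k : Gˣ) then x else 0) * f (e k) = x * f (u i) := by
    intro i x f hf
    by_cases hi : u i = 1
    · rw [hi, hf, mul_zero]
      refine Finset.sum_eq_zero fun k _ => ?_
      have h1 : (e k : Gˣ) ≠ 1 := (Finset.mem_erase.1 (e k).2).1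
      rw [if_neg (by
        intro h2
        exact h1 h2.symm), zero_mul]
    · rw [Finset.sum_eq_single (e.symm ⟨u i, hΘ i hi⟩)]
      · rw [Equiv.apply_symm_apply, if_pos rfl]
      · intro k _ hk
        rw [if_neg, zero_mul]
        intro h1
        apply hk
        rw [Equiv.eq_symm_apply]
        exact Subtype.ext h1.symm
      · intro h1
        exact absurd (Finset.mem_univ _) h1
  obtain ⟨w, hw⟩ := gordan (fun k => ((e k : Gˣ))⁻¹) q (by
    rintro (α | θ)
    · have h1 : ∏ k, ((e k : Gˣ))⁻¹ ^ q (Sum.inl α) k = ∏ i, (u i)⁻¹ ^ ((α.1 i : ℤ) - m) := by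
        have h2 : ∀ k, ((e k : Gˣ))⁻¹ ^ q (Sum.inl α) k =
            ∏ i, if u i = (e k : Gˣ) then (u i)⁻¹ ^ ((α.1 i : ℤ) - m) else 1 := by
          intro k
          change ((e k : Gˣ))⁻¹ ^ (∑ i, if u i = (e k : Gˣ) then ((α.1 i : ℤ) - m) else 0) = _
          rw [← prod_zpow_sum]
          refine Finset.prod_congr rfl fun i _ => ?_
          by_cases h3 : u i = (e k : Gˣ)
          · rw [if_pos h3, if_pos h3, h3]
          · rw [if_neg h3, if_neg h3, zpow_zero]
        simp only [h2]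
        rw [Finset.prod_comm]
        refine Finset.prod_congr rfl fun i _ => ?_
        by_cases hi : u i = 1
        · rw [hi, inv_one, one_zpow]
          exact Finset.prod_eq_one fun k _ => by split_ifs <;> rfl
        · rw [Finset.prod_eq_single (e.symm ⟨u i, hΘ i hi⟩)]
          · rw [Equiv.apply_symm_apply, if_pos rfl]
          · intro k _ hk
            rw [if_neg]
            intro h1
            apply hk
            rw [Equiv.eq_symm_apply]
            exact Subtype.ext h1.symm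
          · intro h1
            exact absurd (Finset.mem_univ _) h1
      rw [h1]
      have h4 : ∏ i, u i ^ α.1 i < ∏ i, u i ^ m := by
        rw [← Units.val_lt_val]
        have h5 := h α.1 α.2
        push_cast
        exact h5
      have h5 : ∏ i, (u i)⁻¹ ^ ((α.1 i : ℤ) - m) = (∏ i, u i ^ m) * (∏ i, u i ^ α.1 i)⁻¹ := by
        rw [← Finset.prod_inv_distrib, ← Finset.prod_mul_distrib]
        refine Finset.prod_congr rfl fun i _ => ?_
        rw [inv_zpow, zpow_sub, zpow_natCast, zpow_natCast, mul_inv, inv_inv, mul_comm]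
      rw [h5]
      exact one_lt_div'.2 h4 |>.trans_eq (div_eq_mul_inv _ _)
    · have h1 : ∏ k, ((e k : Gˣ))⁻¹ ^ q (Sum.inr θ) k = (θ : Gˣ)⁻¹ := by
        rw [Finset.prod_eq_single (e.symm θ)]
        · change ((e (e.symm θ) : Gˣ))⁻¹ ^ (if e (e.symm θ) = θ then (1 : ℤ) else 0) = _
          rw [Equiv.apply_symm_apply, if_pos rfl, zpow_one]
        · intro k _ hk
          change ((e k : Gˣ))⁻¹ ^ (if e k = θ then (1 : ℤ) else 0) = _
          rw [if_neg, zpow_zero]
          intro h2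
          apply hk
          rw [← h2, Equiv.symm_apply_apply]
        · intro h1
          exact absurd (Finset.mem_univ _) h1
      rw [h1]
      obtain ⟨h2, h3⟩ := Finset.mem_erase.1 θ.2
      obtain ⟨i, -, hi⟩ := Finset.mem_image.1 h3
      rw [one_lt_inv']
      exact lt_of_le_of_ne (hi ▸ hu i) h2)
  let f : Gˣ → ℤ := fun x => if hx : x ∈ Θ then w (e.symm ⟨x, hx⟩) else 0
  have hf1 : f 1 = 0 := dif_neg (Finset.notMem_erase _ _)
  have hfe : ∀ k, f (e k) = w k := by
    intro k
    change (if hx : (e k : Gˣ) ∈ Θ then w (e.symm ⟨(e k : Gˣ), hx⟩) else 0) = w k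
    rw [dif_pos (e k).2]
    congr 1
    exact e.symm_apply_apply k
  have hfpos : ∀ x, 0 ≤ f x := by
    intro x
    by_cases hx : x ∈ Θ
    · have h1 := hw (Sum.inr ⟨x, hx⟩)
      have h2 : ∑ k, q (Sum.inr ⟨x, hx⟩) k * w k = w (e.symm ⟨x, hx⟩) := by
        rw [Finset.sum_eq_single (e.symm ⟨x, hx⟩)]
        · change (if e (e.symm ⟨x, hx⟩) = ⟨x, hx⟩ then (1 : ℤ) else 0) * _ = _
          rw [Equiv.apply_symm_apply, if_pos rfl, one_mul]
        · intro k _ hk
          change (if e k = ⟨x, hx⟩ then (1 : ℤ) else 0) * _ = _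
          rw [if_neg, zero_mul]
          intro h2
          apply hk
          rw [← h2, Equiv.symm_apply_apply]
        · intro h1
          exact absurd (Finset.mem_univ _) h1
      rw [h2] at h1
      change 0 ≤ (if hx : x ∈ Θ then w (e.symm ⟨x, hx⟩) else 0)
      rw [dif_pos hx]
      exact h1.le
    · change 0 ≤ (if hx : x ∈ Θ then w (e.symm ⟨x, hx⟩) else 0)
      rw [dif_neg hx]
  refine ⟨fun i => (f (u i)).toNat, ?_, fun α hα => ?_⟩
  · have h1 : u i₀ = 1 := Units.ext hi₀
    simp only [h1, hf1]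
    rfl
  · have h1 := hw (Sum.inl ⟨α, hα⟩)
    have h2 : ∑ k, q (Sum.inl ⟨α, hα⟩) k * w k = ∑ i, ((α i : ℤ) - m) * f (u i) := by
      rw [← Finset.sum_congr rfl fun i _ => hsum i ((α i : ℤ) - m) f hf1]
      rw [Finset.sum_comm]
      refine Finset.sum_congr rfl fun k _ => ?_
      change (∑ i, if u i = (e k : Gˣ) then ((α i : ℤ) - m) else 0) * w k = _
      rw [Finset.sum_mul]
      refine Finset.sum_congr rfl fun i _ => ?_
      rw [hfe]
    rw [h2] at h1
    have h3 : ((m * ∑ i, (f (u i)).toNat : ℕ) : ℤ) < ((∑ i, (f (u i)).toNat * α i : ℕ) : ℤ) := by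
      push_cast
      simp only [Int.toNat_of_nonneg (hfpos _)]
      rw [Finset.mul_sum, ← sub_pos, ← Finset.sum_sub_distrib]
      refine h1.trans_eq (Finset.sum_congr rfl fun i _ => ?_)
      ring
    exact_mod_cast h3

end H18.GIT
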