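import Mathlib

/-!
# Invertible matrices over a valued field
-/

set_option autoImplicit false
set_option linter.unusedSectionVars false

namespace H18.GIT

variable {K : Type*} [Field K] (O : ValuationSubring K)

/-- The matrix over `K` of a matrix over the valuation ring. -/
def up {n : Type*} (k : Matrix n n O) : Matrix n n K := k.map (fun x => (x : K))

/-- The existence of the decomposition. -/
def HasSmith (n : Type*) [Fintype n] [DecidableEq n] : Prop :=
  ∀ g : Matrix n n K, g.det ≠ 0 → ∃ (k₁ k₂ : Matrix n n O) (t : n → K), IsUnit k₁.det ∧ IsUnit k₂.det ∧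
    g * up O k₂ = up O k₁ * Matrix.diagonal t

theorem up_mul {n : Type*} [Fintype n] (k l : Matrix n n O) : up O (k * l) = up O k * up O l := by
  ext i j
  simp [up, Matrix.mul_apply]

theorem HasSmith.equiv {n n' : Type*} [Fintype n] [DecidableEq n] [Fintype n'] [DecidableEq n']
    (e : n ≃ n') (h : HasSmith O n) : HasSmith O n' := by
  intro g hg
  obtain ⟨k₁, k₂, t, h1, h2, h3⟩ := h (g.submatrix e e) (by rwa [Matrix.det_submatrix_equiv_self])
  refine ⟨k₁.submatrix e.symm e.symm, k₂.submatrix e.symm e.symm, t ∘ e.symm, ?_, ?_, ?_⟩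
  · rwa [Matrix.det_submatrix_equiv_self]
  · rwa [Matrix.det_submatrix_equiv_self]
  · have h4 := congrArg (fun A => Matrix.submatrix A e.symm e.symm) h3
    rw [← Matrix.submatrix_mul_equiv _ _ e.symm e.symm e.symm,
      ← Matrix.submatrix_mul_equiv _ _ e.symm e.symm e.symm, Matrix.submatrix_submatrix,
      Matrix.submatrix_diagonal_equiv] at h4
    have h5 : g.submatrix (e ∘ e.symm) (e ∘ e.symm) = g := by
      ext i j
      simp
    rw [h5] at h4
    exact h4

theorem HasSmith.step {n : Type*} [Fintype n] [DecidableEq n] (h : HasSmith O n) :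
    HasSmith O (Unit ⊕ n) := by
  -- the case of a good first entry
  have key : ∀ g : Matrix (Unit ⊕ n) (Unit ⊕ n) K, g.det ≠ 0 →
      (∀ i j, O.valuation (g i j) ≤ O.valuation (g (Sum.inl ()) (Sum.inl ()))) →
      ∃ (k₁ k₂ : Matrix (Unit ⊕ n) (Unit ⊕ n) O) (t : Unit ⊕ n → K), IsUnit k₁.det ∧ IsUnit k₂.det ∧
        g * up O k₂ = up O k₁ * Matrix.diagonal t := by
    intro g hg hmax
    set a := g (Sum.inl ()) (Sum.inl ()) with ha
    have ha0 : a ≠ 0 := by
      intro h0
      apply hg
      have h1 : g = 0 := by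
        ext i j
        have h2 := hmax i j
        rw [h0, map_zero, le_zero_iff, map_eq_zero] at h2
        exact h2
      rw [h1, Matrix.det_zero]
    have hva : O.valuation a ≠ 0 := by rwa [Ne, map_eq_zero]
    have hO : ∀ i j, g i j / a ∈ O := by
      intro i j
      rw [← O.valuation_le_one_iff, map_div₀]
      exact div_le_one_of_le₀ (hmax i j) zero_le
    let B : n → O := fun j => ⟨g (Sum.inl ()) (Sum.inr j) / a, hO _ _⟩
    let C : n → O := fun i => ⟨g (Sum.inr i) (Sum.inl ()) / a, hO _ _⟩
    let D' : Matrix n n K := Matrix.of fun i j => g (Sum.inr i) (Sum.inr j) - a * (C i : K) * (B j : K)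
    have hB : ∀ j, a * (B j : K) = g (Sum.inl ()) (Sum.inr j) := fun j => mul_div_cancel₀ _ ha0
    have hC : ∀ i, a * (C i : K) = g (Sum.inr i) (Sum.inl ()) := fun j => mul_div_cancel₀ _ ha0
    -- the determinant
    have hdec : g = Matrix.fromBlocks 1 0 (Matrix.of fun i _ => (C i : K)) 1 *
        Matrix.fromBlocks (Matrix.of fun _ _ => a) (Matrix.of fun _ j => a * (B j : K)) 0 D' := by
      rw [Matrix.fromBlocks_multiply]
      ext i j
      rcases i with ⟨⟩ | i <;> rcases j with ⟨⟩ | j
      · simp [ha]
      · simp [hB]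
      · simp only [Matrix.fromBlocks_apply₂₁, Matrix.add_apply, Matrix.mul_apply, Matrix.of_apply,
          Finset.univ_unique, Finset.sum_singleton, Matrix.zero_apply, mul_zero,
          Finset.sum_const_zero, add_zero]
        rw [mul_comm, hC]
      · simp only [Matrix.fromBlocks_apply₂₂, Matrix.add_apply, Matrix.mul_apply, Matrix.of_apply,
          Finset.univ_unique, Finset.sum_singleton, D', one_mul]
        ring
    have hdet : g.det = a * D'.det := by
      rw [hdec, Matrix.det_mul, Matrix.det_fromBlocks_zero₁₂, Matrix.det_fromBlocks_zero₂₁]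
      simp
    have hD' : D'.det ≠ 0 := by
      intro h0
      apply hg
      rw [hdet, h0, mul_zero]
    obtain ⟨k₁, k₂, t, h1, h2, h3⟩ := h D' hD'
    refine ⟨Matrix.fromBlocks 1 0 (Matrix.of fun i _ => C i) k₁,
      Matrix.fromBlocks 1 (Matrix.of fun _ j => - ∑ l, B l * k₂ l j) 0 k₂, Sum.elim (fun _ => a) t,
      ?_, ?_, ?_⟩
    · rw [Matrix.det_fromBlocks_zero₁₂, Matrix.det_one, one_mul]
      exact h1
    · rw [Matrix.det_fromBlocks_zero₂₁, Matrix.det_one, one_mul]
      exact h2
    · have h4 : ∀ i j, ∑ l, D' i l * (k₂ l j : K) = (k₁ i j : K) * t j := by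
        intro i j
        have h5 := congrFun (congrFun h3 i) j
        rw [Matrix.mul_apply, Matrix.mul_diagonal] at h5
        exact h5
      ext i j
      rw [Matrix.mul_diagonal, Matrix.mul_apply, Fintype.sum_sum_type]
      rcases i with ⟨⟩ | i <;> rcases j with ⟨⟩ | j
      · simp [up, ha]
      · simp only [up, Matrix.map_apply, Finset.univ_unique, Finset.sum_singleton,
          Matrix.fromBlocks_apply₁₂, Matrix.fromBlocks_apply₂₂, Matrix.of_apply, Matrix.zero_apply,
          Sum.elim_inr]
        push_cast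
        rw [zero_mul, mul_neg, Finset.mul_sum, neg_add_eq_zero]
        refine Finset.sum_congr rfl fun l _ => ?_
        rw [← hB l, ← ha]
        ring
      · simp only [up, Matrix.map_apply, Finset.univ_unique, Finset.sum_singleton,
          Matrix.fromBlocks_apply₁₁, Matrix.fromBlocks_apply₂₁, Matrix.of_apply, Matrix.zero_apply,
          Sum.elim_inl]
        simp only [Matrix.one_apply, if_true]
        push_cast
        rw [mul_one, ← hC i, mul_comm]
        simp
      · simp only [up, Matrix.map_apply, Finset.univ_unique, Finset.sum_singleton,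
          Matrix.fromBlocks_apply₁₂, Matrix.fromBlocks_apply₂₂, Matrix.of_apply,
          Sum.elim_inr]
        push_cast
        rw [← h4 i j, ← hC i, mul_neg, Finset.mul_sum, ← Finset.sum_neg_distrib,
          ← Finset.sum_add_distrib]
        refine Finset.sum_congr rfl fun l _ => ?_
        simp only [D', Matrix.of_apply]
        ring
  intro g hg
  obtain ⟨⟨i₀, j₀⟩, -, hmax⟩ := Finset.exists_max_image (Finset.univ : Finset ((Unit ⊕ n) × (Unit ⊕ n)))
    (fun x => O.valuation (g x.1 x.2)) Finset.univ_nonempty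
  let σ : Equiv.Perm (Unit ⊕ n) := Equiv.swap (Sum.inl ()) i₀
  let τ : Equiv.Perm (Unit ⊕ n) := Equiv.swap (Sum.inl ()) j₀
  have hdet : (g.submatrix σ τ).det ≠ 0 := by
    have h1 : g.submatrix σ τ = (g.submatrix σ id).submatrix id τ := rfl
    rw [h1, Matrix.det_permute', Matrix.det_permute]
    refine mul_ne_zero ?_ (mul_ne_zero ?_ hg)
    · rcases Int.units_eq_one_or (Equiv.Perm.sign τ) with h | h <;> rw [h] <;> simp
    · rcases Int.units_eq_one_or (Equiv.Perm.sign σ) with h | h <;> rw [h] <;> simp
  obtain ⟨k₁, k₂, t, h1, h2, h3⟩ := key (g.submatrix σ τ) hdet (by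
    intro i j
    rw [Matrix.submatrix_apply, Matrix.submatrix_apply]
    have h4 : σ (Sum.inl ()) = i₀ := Equiv.swap_apply_left _ _
    have h5 : τ (Sum.inl ()) = j₀ := Equiv.swap_apply_left _ _
    rw [h4, h5]
    exact hmax (σ i, τ j) (Finset.mem_univ _))
  refine ⟨k₁.submatrix σ.symm id, k₂.submatrix τ.symm id, t, ?_, ?_, ?_⟩
  · rw [Matrix.det_permute]
    exact IsUnit.mul (by
      rcases Int.units_eq_one_or (Equiv.Perm.sign σ.symm) with h | h <;> rw [h] <;> simp) h1
  · rw [Matrix.det_permute]
    exact IsUnit.mul (by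
      rcases Int.units_eq_one_or (Equiv.Perm.sign τ.symm) with h | h <;> rw [h] <;> simp) h2
  · ext i j
    have h4 := congrFun (congrFun h3 (σ.symm i)) j
    rw [Matrix.mul_diagonal, Matrix.mul_apply] at h4
    rw [Matrix.mul_diagonal, Matrix.mul_apply]
    simp only [Matrix.submatrix_apply, Equiv.apply_symm_apply, up, Matrix.map_apply, id] at h4 ⊢
    rw [← h4]
    rw [← Equiv.sum_comp τ]
    refine Finset.sum_congr rfl fun l _ => ?_
    rw [Equiv.symm_apply_apply]

/-- The decomposition `g = k₁ diag(t) k₂⁻¹` of an invertible matrix over a valued field. -/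
theorem smith {n : Type*} [Fintype n] [DecidableEq n] : HasSmith O n := by
  have h : ∀ m : ℕ, HasSmith O (Fin m) := by
    intro m
    induction m with
    | zero =>
      intro g _
      refine ⟨1, 1, fun i => i.elim0, ?_, ?_, ?_⟩
      · simp
      · simp
      · ext i
        exact i.elim0
    | succ m ih =>
      refine (ih.step O).equiv O ?_
      exact (Equiv.sumComm _ _).trans ((Equiv.sumCongr (Equiv.refl _)
        (Equiv.ofUnique Unit (Fin 1))).trans finSumFinEquiv)
  exact (h (Fintype.card n)).equiv O (Fintype.equivFin n).symm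

end H18.GIT
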