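import Pool.Agent.H18.GIT.Val
import Pool.Agent.H18.GIT.Smith
import Pool.Agent.H18.GIT.Gordan
import Pool.Agent.H18.GIT.FSubst

/-!
# Log canonical pairs on flag varieties with a point are semistable
-/

set_option autoImplicit false
set_option linter.unusedSectionVars false

namespace H18.GIT

open MvPolynomial

section family

variable {q : ℕ} {A B : Type*} [CommRing A] [CommRing B]

/-- The coefficient of `f (g y)` as a polynomial in `g`. -/
noncomputable def cfA (f : MvPolynomial (Fin q × Fin q) A) (α : Fin q × Fin q →₀ ℕ) :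
    MvPolynomial (Fin q × Fin q) A :=
  coeff α (sm (genA A q) (map C f))

/-- The semi-invariants of `adj(g) x` as polynomials in `g`. -/
noncomputable def hA (l : Fin q → ℕ) (x : Matrix (Fin q) (Fin q) A) (μ : Fin q × Fin q →₀ ℕ) :
    MvPolynomial (Fin q × Fin q) A :=
  coeff μ (hf l ((genA A q).adjugate * x.map C))

/-- The family of the functions on the group. -/
noncomputable def PA (l : Fin q → ℕ) (f : MvPolynomial (Fin q × Fin q) A)
    (x : Matrix (Fin q) (Fin q) A) (z : (Fin q × Fin q →₀ ℕ) × (Fin q × Fin q →₀ ℕ)) :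
    MvPolynomial (Fin q × Fin q) A :=
  cfA f z.1 * hA l x z.2

/-- The image of the coefficients under a homomorphism to a ring. -/
theorem eval₂_cfA (φ : A →+* B) (g : Matrix (Fin q) (Fin q) B) (f : MvPolynomial (Fin q × Fin q) A)
    (α : Fin q × Fin q →₀ ℕ) :
    eval₂ φ (fun x => g x.1 x.2) (cfA f α) = coeff α (sm g (map φ f)) := by
  have h0 : eval₂ φ (fun x => g x.1 x.2) (cfA f α) =
      (eval₂Hom φ fun x : Fin q × Fin q => g x.1 x.2) (cfA f α) := rfl
  rw [h0, cfA, ← coeff_map, map_sm, map_map]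
  have h1 : (eval₂Hom φ fun x : Fin q × Fin q => g x.1 x.2).comp C = φ := by
    ext c
    simp
  have h2 : (genA A q).map (eval₂Hom φ fun x : Fin q × Fin q => g x.1 x.2) = g := by
    ext i j
    simp [genA]
  rw [h1, h2]

theorem eval₂_hA (φ : A →+* B) (g : Matrix (Fin q) (Fin q) B) (l : Fin q → ℕ)
    (x : Matrix (Fin q) (Fin q) A) (μ : Fin q × Fin q →₀ ℕ) :
    eval₂ φ (fun x => g x.1 x.2) (hA l x μ) = coeff μ (hf l (g.adjugate * x.map φ)) := by
  have h0 : eval₂ φ (fun x => g x.1 x.2) (hA l x μ) =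
      (eval₂Hom φ fun x : Fin q × Fin q => g x.1 x.2) (hA l x μ) := rfl
  rw [h0, hA, ← coeff_map, map_hf]
  congr 2
  rw [Matrix.map_mul]
  congr 1
  · have h3 := RingHom.map_adjugate (eval₂Hom φ fun x : Fin q × Fin q => g x.1 x.2) (genA A q)
    have h2 : (eval₂Hom φ fun x : Fin q × Fin q => g x.1 x.2).mapMatrix (genA A q) = g := by
      ext i j
      simp [genA]
    rw [h2] at h3
    rw [← h3]
    rfl
  · ext i j
    simp

end family

theorem exists_zero' {n : Type*} [Fintype n] [DecidableEq n] {k : Type*} [CommRing k] [IsDomain k]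
    (θ : MvPolynomial (n × n) ℂ →+* k) (h : θ (dt n) ≠ 0) :
    ∃ κ : Matrix n n ℂ, κ.det ≠ 0 ∧ ∀ P, θ P = 0 → eval (fun x => κ x.1 x.2) P = 0 := by
  by_contra hcon
  push Not at hcon
  have h1 : dt n ∈ vanishingIdeal ℂ (zeroLocus ℂ (RingHom.ker θ)) := by
    rw [mem_vanishingIdeal_iff]
    intro x hx
    by_contra h2
    have h3 : (fun y : n × n => (Matrix.of fun i j => x (i, j)) y.1 y.2) = x := by
      funext y
      rfl
    have h4 := eval_dt (Matrix.of fun i j => x (i, j))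
    rw [h3] at h4
    obtain ⟨P, hP, hP0⟩ := hcon (Matrix.of fun i j => x (i, j)) (by
      rw [← h4]
      rwa [← coe_aeval_eq_eval])
    rw [h3] at hP0
    apply hP0
    have h5 := hx P hP
    rwa [← coe_aeval_eq_eval]
  have h6 : (RingHom.ker θ).IsPrime := RingHom.ker_isPrime θ
  rw [vanishingIdeal_zeroLocus_eq_radical, h6.radical] at h1
  exact h h1

theorem det_genA (q : ℕ) : (genA ℂ q).det = dt (Fin q) := rfl

/-- The integral form of the weight inequalities. -/
theorem weights_contra {q : ℕ} {b : Fin q → ℕ} (hb : Monotone b) {m : ℕ} (hm : 1 ≤ m) {d : ℕ → ℕ}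
    {f : MvPolynomial (Fin q × Fin q) ℂ} (hf : Q47.FL.IsSemiInvariant b d f)
    (hlc : Q47.FL.IsLogCanonical b m f) {l : Fin q → ℕ} (hl : Antitone l)
    (hld : ∀ j, (l j : ℤ) = d (b j) - m * Q47.FL.anti b j) (w' : Equiv.Perm (Fin q))
    {G : Type*} [LinearOrderedCommGroupWithZero G] (T : Fin q → G) (hT : ∀ i, T i ≠ 0) :
    ∃ α ∈ f.support, ∏ j, T (w' j) ^ l j ≤ ∏ x : Fin q × Fin q, T x.1 ^ α x := by
  classical
  by_contra hcon
  push Not at hcon
  have hcol := fun α hα j => Q47.FL.col_of_semi hf (α := α) hα j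
  -- the support is not empty
  have hne : Nonempty f.support := by
    let w : Equiv.Perm (Fin q) := 1
    have ha0 : ∀ j k, b j < b k → (fun i : Fin q => ((i : ℕ) : ℤ)) (w j) <
        (fun i : Fin q => ((i : ℕ) : ℤ)) (w k) := by
      intro j k hjk
      have h1 : j < k := by
        by_contra h
        exact absurd (hb (not_lt.1 h)) (not_le.2 hjk)
      have h2 : ((j : ℕ) : ℤ) < (k : ℕ) := by exact_mod_cast h1
      exact h2
    obtain ⟨α, hα, -⟩ := Q47.FL.weights hcol w (fun i : Fin q => ((i : ℕ) : ℤ)) ha0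
      (Q47.FL.weights_of_lc hm hlc w (fun i : Fin q => ((i : ℕ) : ℤ)) ha0)
    exact ⟨⟨α, hα⟩⟩
  let u : Fin q → Gˣ := fun i => Units.mk0 (T i) (hT i)
  obtain ⟨β, hβ⟩ := gordan u (J := f.support)
    (fun α i => (l (w'.symm i) : ℤ) - Q47.FL.row α.1 i) (by
      intro α
      have h1 := hcon α.1 α.2
      have h2 : (∏ x : Fin q × Fin q, u x.1 ^ α.1 x) < ∏ j, u (w' j) ^ l j := by
        rw [← Units.val_lt_val]
        push_cast
        exact h1
      have h3 : ∏ i, u i ^ ((l (w'.symm i) : ℤ) - Q47.FL.row α.1 i) =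
          (∏ j, u (w' j) ^ l j) / ∏ x : Fin q × Fin q, u x.1 ^ α.1 x := by
        rw [← w'.symm.prod_comp (fun j => u (w' j) ^ l j), Fintype.prod_prod_type,
          ← Finset.prod_div_distrib]
        refine Finset.prod_congr rfl fun i _ => ?_
        have h4 : u i ^ ∑ j, α.1 (i, j) = ∏ y, u (i, y).1 ^ α.1 (i, y) :=
          (Finset.prod_pow_eq_pow_sum _ _ _).symm
        rw [zpow_sub, Equiv.apply_symm_apply, zpow_natCast, zpow_natCast, div_eq_mul_inv, Q47.FL.row,
          h4]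
      rw [h3]
      exact one_lt_div'.2 h2)
  -- perturbation
  obtain ⟨M, hM⟩ : ∃ M : ℕ, ∀ α ∈ f.support,
      |∑ i, ((l (w'.symm i) : ℤ) - Q47.FL.row α i) * (i : ℤ)| < M := by
    refine ⟨∑ α ∈ f.support, (|∑ i, ((l (w'.symm i) : ℤ) - Q47.FL.row α i) * (i : ℤ)|).toNat + 1,
      fun α hα => ?_⟩
    have h1 := Finset.single_le_sum
      (f := fun α => (|∑ i, ((l (w'.symm i) : ℤ) - Q47.FL.row α i) * (i : ℤ)|).toNat)
      (fun _ _ => Nat.zero_le _) hα
    have h2 := Int.toNat_of_nonneg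
      (abs_nonneg (∑ i, ((l (w'.symm i) : ℤ) - Q47.FL.row α i) * (i : ℤ)))
    rw [← h2]
    exact_mod_cast Nat.lt_succ_of_le h1
  set a : Fin q → ℤ := fun i => -((M + q : ℕ) * β i + i) with ha
  have hinj : Function.Injective a := by
    intro i j hij
    simp only [ha, neg_inj] at hij
    by_contra hne
    have h1 : ((M + q : ℕ) : ℤ) * (β i - β j) = (j : ℤ) - i := by
      rw [mul_sub]
      omega
    have h2 : (j : ℤ) - i ≠ 0 := by
      intro h
      apply hne
      apply Fin.ext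
      omega
    have h3 : β i - β j ≠ 0 := by
      intro h
      rw [h, mul_zero] at h1
      exact h2 h1.symm
    have h4 : |(j : ℤ) - i| < q := by
      rw [abs_lt]
      have := i.2
      have := j.2
      omega
    rw [← h1, abs_mul] at h4
    have h5 : 1 ≤ |β i - β j| := Int.one_le_abs h3
    have h6 : |((M + q : ℕ) : ℤ)| = (M + q : ℕ) := abs_of_nonneg (Int.natCast_nonneg _)
    rw [h6] at h4
    have h7 : ((M + q : ℕ) : ℤ) * 1 ≤ ((M + q : ℕ) : ℤ) * |β i - β j| :=
      mul_le_mul_of_nonneg_left h5 (Int.natCast_nonneg _)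
    push_cast at h4 h7
    omega
  let w : Equiv.Perm (Fin q) := Tuple.sort a
  have hmono : StrictMono (a ∘ w) :=
    (Tuple.monotone_sort a).strictMono_of_injective (hinj.comp w.injective)
  have hs : ∀ j k, b j < b k → a (w j) < a (w k) := by
    intro j k hjk
    apply hmono
    by_contra h
    exact absurd (hb (not_lt.1 h)) (not_le.2 hjk)
  obtain ⟨α, hα, hle⟩ := Q47.FL.weights hcol w a hs (Q47.FL.weights_of_lc hm hlc w a hs)
  have h1 := hβ ⟨α, hα⟩
  have h2 : ∑ i, ((l (w'.symm i) : ℤ) - Q47.FL.row α i) * a i < 0 := by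
    have h3 : ∑ i, ((l (w'.symm i) : ℤ) - Q47.FL.row α i) * a i =
        -((M + q : ℕ) * ∑ i, ((l (w'.symm i) : ℤ) - Q47.FL.row α i) * β i +
          ∑ i, ((l (w'.symm i) : ℤ) - Q47.FL.row α i) * (i : ℤ)) := by
      rw [Finset.mul_sum, ← Finset.sum_add_distrib, ← Finset.sum_neg_distrib]
      refine Finset.sum_congr rfl fun i _ => ?_
      simp only [ha]
      ring
    rw [h3, neg_lt_zero]
    have h4 := (abs_lt.1 (hM α hα)).1
    have h5 : ((M + q : ℕ) : ℤ) * 1 ≤
        (M + q : ℕ) * ∑ i, ((l (w'.symm i) : ℤ) - Q47.FL.row α i) * β i :=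
      mul_le_mul_of_nonneg_left (by
        have h6 : (0 : ℤ) < ∑ i, ((l (w'.symm i) : ℤ) - Q47.FL.row α i) * β i := h1
        omega) (Int.natCast_nonneg _)
    push_cast at h5 ⊢
    omega
  -- the rearrangement inequality
  have h3 : ∑ j, a (w j) * (l j : ℤ) ≤ ∑ j, a (w' j) * (l j : ℤ) := by
    have hanti : Antivary (fun j => ((l j : ℕ) : ℤ)) (a ∘ w) := by
      intro i j hij
      have h7 : i < j := hmono.lt_iff_lt.1 hij
      change ((l j : ℕ) : ℤ) ≤ (l i : ℕ)
      exact_mod_cast hl h7.le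
    have h4 := hanti.sum_mul_le_sum_mul_comp_perm (σ := w'.trans w.symm)
    have h5 : ∑ j, a (w j) * (l j : ℤ) = ∑ j, (l j : ℤ) * (a ∘ w) j :=
      Finset.sum_congr rfl fun j _ => mul_comm _ _
    have h6 : ∑ j, a (w' j) * (l j : ℤ) = ∑ j, (l j : ℤ) * (a ∘ w) ((w'.trans w.symm) j) :=
      Finset.sum_congr rfl fun j _ => by
        rw [Function.comp, Equiv.trans_apply, Equiv.apply_symm_apply, mul_comm]
    rw [h5, h6]
    exact h4
  have h4 : ∑ j, a (w' j) * (l j : ℤ) = ∑ i, a i * (l (w'.symm i) : ℤ) := by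
    rw [← w'.symm.sum_comp (fun j => a (w' j) * (l j : ℤ))]
    refine Finset.sum_congr rfl fun i _ => ?_
    rw [Equiv.apply_symm_apply]
  have h5 : ∑ j, a (w j) * ((d (b j) : ℤ) - m * Q47.FL.anti b j) = ∑ j, a (w j) * (l j : ℤ) :=
    Finset.sum_congr rfl fun j _ => by rw [hld]
  rw [h5] at hle
  have h6 : ∑ i, ((l (w'.symm i) : ℤ) - Q47.FL.row α i) * a i =
      ∑ i, a i * (l (w'.symm i) : ℤ) - ∑ i, a i * Q47.FL.row α i := by
    rw [← Finset.sum_sub_distrib]
    exact Finset.sum_congr rfl fun i _ => by ring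
  rw [h6] at h2
  omega

end H18.GIT
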