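import Pool.Agent.H18.GIT.FSemi

/-!
# Log canonical pairs on flag varieties with a point are semistable: the valuations
-/

set_option autoImplicit false
set_option linter.unusedSectionVars false

namespace H18.GIT

open MvPolynomial

variable {q : ℕ}

theorem adjugate_eq {K : Type*} [Field K] {n : Type*} [Fintype n] [DecidableEq n] (G : Matrix n n K)
    (hG : G.det ≠ 0) : G.adjugate = G.det • G⁻¹ := by
  rw [Matrix.inv_def, smul_smul, Ring.mul_inverse_cancel _ (isUnit_iff_ne_zero.2 hG), one_smul]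

theorem fsemistable_val {b : Fin q → ℕ} (hb : Monotone b) {m : ℕ} (hm : 1 ≤ m) {d : ℕ → ℕ}
    {f : MvPolynomial (Fin q × Fin q) ℂ} (hfs : Q47.FL.IsSemiInvariant b d f)
    (hlc : Q47.FL.IsLogCanonical b m f) {l : Fin q → ℕ} (hl : Antitone l)
    (hld : ∀ j, (l j : ℤ) = d (b j) - m * Q47.FL.anti b j)
    {x : Matrix (Fin q) (Fin q) ℂ} (hx : x.det ≠ 0)
    (O : ValuationSubring (FractionRing (MvPolynomial (Fin q × Fin q) ℂ)))
    (hO : ∀ c : ℂ, algebraMap ℂ (FractionRing (MvPolynomial (Fin q × Fin q) ℂ)) c ∈ O) :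
    ∃ z : (Fin q × Fin q →₀ ℕ) × (Fin q × Fin q →₀ ℕ),
      1 ≤ O.valuation (algebraMap _ (FractionRing (MvPolynomial (Fin q × Fin q) ℂ)) (PA l f x z) /
        (algebraMap _ (FractionRing (MvPolynomial (Fin q × Fin q) ℂ)) (dt (Fin q))) ^ (∑ j, l j)) := by
  classical
  by_contra hcon
  push Not at hcon
  set K := FractionRing (MvPolynomial (Fin q × Fin q) ℂ)
  let ι : MvPolynomial (Fin q × Fin q) ℂ →+* K := algebraMap _ K
  have hι : Function.Injective ι := IsFractionRing.injective _ K
  let v := O.valuation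
  let G : Matrix (Fin q) (Fin q) K := (genA ℂ q).map ι
  have hGdet : G.det = ι (dt (Fin q)) := by
    have := RingHom.map_det ι (genA ℂ q)
    rw [← det_genA, this]
    rfl
  have hG : G.det ≠ 0 := by
    rw [hGdet]
    exact fun h => dt_ne_zero (hι (by rw [h, map_zero]))
  have hvG : v G.det ≠ 0 := by rwa [Ne, map_eq_zero]
  let F : MvPolynomial (Fin q × Fin q) K := map (ι.comp C) f
  let xx : Matrix (Fin q) (Fin q) K := x.map (ι.comp C)
  let y : Matrix (Fin q) (Fin q) K := G⁻¹ * xx
  have hcf : ∀ α, ι (cfA f α) = coeff α (sm G F) := by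
    intro α
    rw [cfA, ← coeff_map, map_sm, map_map]
  have hh : ∀ μ, ι (hA l x μ) = G.det ^ (∑ j, l j) * coeff μ (hf l y) := by
    intro μ
    have h1 : ι (hA l x μ) = coeff μ (hf l (G.adjugate * xx)) := by
      rw [hA, ← coeff_map, map_hf, Matrix.map_mul]
      congr 3
      have h3 := RingHom.map_adjugate ι (genA ℂ q)
      exact h3
    rw [h1, adjugate_eq G hG, Matrix.smul_mul, hf_smul hl, coeff_C_mul]
  have hlt : ∀ α μ, v (coeff α (sm G F)) * v (coeff μ (hf l y)) < 1 := by
    intro α μ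
    have h1 := hcon (α, μ)
    have h2 : algebraMap _ K (PA l f x (α, μ)) / (algebraMap _ K (dt (Fin q))) ^ (∑ j, l j) =
        coeff α (sm G F) * coeff μ (hf l y) := by
      change ι (cfA f α * hA l x μ) / (ι (dt (Fin q))) ^ (∑ j, l j) = _
      rw [map_mul, hcf, hh, ← hGdet]
      rw [div_eq_iff (pow_ne_zero _ hG)]
      ring
    rw [h2, map_mul] at h1
    exact h1
  obtain ⟨k₁, k₂, t, hk₁, hk₂, hsm⟩ := smith O G hG
  have hvunit : ∀ k : Matrix (Fin q) (Fin q) O, IsUnit k.det → v (up O k).det = 1 := by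
    intro k hk
    have h1 : (up O k).det = ((k.det : O) : K) := (RingHom.map_det O.subtype k).symm
    rw [h1]
    exact (O.valuation_eq_one_iff _).1 hk
  have hdet : v G.det = ∏ i, v (t i) := by
    have h1 := congrArg (fun A => v (Matrix.det A)) hsm
    simp only [Matrix.det_mul, map_mul, Matrix.det_diagonal] at h1
    rw [hvunit k₁ hk₁, hvunit k₂ hk₂, one_mul, mul_one, map_prod] at h1
    exact h1
  have hvt0 : ∀ i, v (t i) ≠ 0 := by
    intro i h
    apply hvG
    rw [hdet]
    exact Finset.prod_eq_zero (Finset.mem_univ i) h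
  have ht0 : ∀ i, t i ≠ 0 := fun i h => hvt0 i (by rw [h, map_zero])
  -- specialization
  let j : ℂ →+* O := (algebraMap ℂ K).codRestrict O.toSubring hO
  let res : O →+* IsLocalRing.ResidueField O := IsLocalRing.residue O
  let θ : MvPolynomial (Fin q × Fin q) ℂ →+* IsLocalRing.ResidueField O :=
    eval₂Hom (res.comp j) fun y => res (k₁ y.1 y.2)
  have hθ : ∀ P, θ P = res (eval₂Hom j (fun y => k₁ y.1 y.2) P) := by
    intro P
    have h1 : θ = res.comp (eval₂Hom j (fun y => k₁ y.1 y.2)) := by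
      apply MvPolynomial.ringHom_ext
      · intro c
        simp [θ]
      · intro c
        simp [θ]
    rw [h1]
    rfl
  have hgenO : (genA ℂ q).map (eval₂Hom j (fun y : Fin q × Fin q => k₁ y.1 y.2)) = k₁ := by
    ext a c
    simp [genA]
  have hθdt : θ (dt (Fin q)) ≠ 0 := by
    have h1 : θ (dt (Fin q)) = res k₁.det := by
      rw [hθ, ← det_genA, RingHom.map_det, RingHom.mapMatrix_apply, hgenO]
    rw [h1]
    exact (hk₁.map res).ne_zero
  obtain ⟨κ, hκ, hker⟩ := exists_zero' θ hθdt
  -- the coefficients of `f`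
  have hsupp : ∀ α ∈ (sm κ f).support, v (coeff α (sm (up O k₁) F)) = 1 := by
    intro α hα
    have h0 : eval₂Hom j (fun y : Fin q × Fin q => k₁ y.1 y.2) (cfA f α) =
        coeff α (sm k₁ (map j f)) := eval₂_cfA j k₁ f α
    have h1 : ((coeff α (sm k₁ (map j f)) : O) : K) = coeff α (sm (up O k₁) F) := by
      have h2 : ((coeff α (sm k₁ (map j f)) : O) : K) =
          coeff α (map O.subtype (sm k₁ (map j f))) := by
        rw [coeff_map]
        rfl
      rw [h2, map_sm, map_map]
      rfl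
    rw [← h1, ← O.valuation_eq_one_iff]
    by_contra hnu
    have h2 : res (coeff α (sm k₁ (map j f))) = 0 := by
      rw [IsLocalRing.residue_eq_zero_iff, IsLocalRing.mem_maximalIdeal]
      exact hnu
    rw [← h0, ← hθ] at h2
    have h3 := hker _ h2
    have h4 := eval₂_cfA (RingHom.id ℂ) κ f α
    rw [map_id] at h4
    have h5 : eval (fun x : Fin q × Fin q => κ x.1 x.2) (cfA f α) = coeff α (sm κ f) := h4
    rw [h5] at h3
    exact (mem_support_iff.1 hα) h3
  -- the minors of the point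
  obtain ⟨w', hw'⟩ := Q47.FL.exists_perm (κ.adjugate * x) (by
    rw [Matrix.det_mul, Matrix.det_adjugate]
    exact mul_ne_zero (pow_ne_zero _ hκ) hx)
  have hpr0 : prr (κ.adjugate * x) w' l ≠ 0 := by
    rw [prr]
    refine Finset.prod_ne_zero_iff.2 fun k hk => pow_ne_zero _ ?_
    rw [mnr_eq]
    exact hw' _ (Finset.mem_range.1 hk)
  have hprO : IsUnit (prr (k₁.adjugate * x.map j) w' l) := by
    by_contra hnu
    have h2 : res (prr (k₁.adjugate * x.map j) w' l) = 0 := by
      rw [IsLocalRing.residue_eq_zero_iff, IsLocalRing.mem_maximalIdeal]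
      exact hnu
    have h3 : eval₂Hom j (fun y : Fin q × Fin q => k₁ y.1 y.2)
        (prr ((genA ℂ q).adjugate * x.map C) w' l) = prr (k₁.adjugate * x.map j) w' l := by
      rw [map_prr, Matrix.map_mul]
      congr 2
      · have h4 := RingHom.map_adjugate (eval₂Hom j (fun y : Fin q × Fin q => k₁ y.1 y.2)) (genA ℂ q)
        rw [RingHom.mapMatrix_apply, RingHom.mapMatrix_apply, hgenO] at h4
        exact h4
      · ext a c
        simp
    rw [← h3, ← hθ] at h2
    have h4 := hker _ h2
    apply hpr0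
    rw [← h4, map_prr, Matrix.map_mul]
    congr 2
    · have h5 := RingHom.map_adjugate (eval fun x : Fin q × Fin q => κ x.1 x.2) (genA ℂ q)
      rw [RingHom.mapMatrix_apply, RingHom.mapMatrix_apply] at h5
      rw [h5]
      congr 1
      ext a c
      simp [genA]
    · ext a c
      simp
  -- the matrix `k₂⁻¹ y`
  have hk₂y : up O k₂⁻¹ * y = (up O k₁).det⁻¹ • (Matrix.diagonal (fun i => (t i)⁻¹) *
      ((up O k₁).adjugate * xx)) := by
    have hk₁K : (up O k₁).det ≠ 0 := by
      have := hvunit k₁ hk₁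
      intro h
      rw [h, map_zero] at this
      exact zero_ne_one this
    have hk₂K : up O k₂⁻¹ * up O k₂ = 1 := by
      rw [← up_mul, Matrix.nonsing_inv_mul _ hk₂]
      ext i j
      rw [up, Matrix.map_apply, Matrix.one_apply, Matrix.one_apply]
      split_ifs <;> simp
    have h1 : G * (up O k₂ * (Matrix.diagonal (fun i => (t i)⁻¹) * (up O k₁)⁻¹)) = 1 := by
      rw [← Matrix.mul_assoc, hsm, Matrix.mul_assoc, ← Matrix.mul_assoc (Matrix.diagonal t),
        Matrix.diagonal_mul_diagonal]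
      have h2 : (Matrix.diagonal fun i => t i * (t i)⁻¹) = (1 : Matrix (Fin q) (Fin q) K) := by
        rw [← Matrix.diagonal_one]
        congr 1
        funext i
        exact mul_inv_cancel₀ (ht0 i)
      rw [h2, Matrix.one_mul, Matrix.mul_nonsing_inv _ (isUnit_iff_ne_zero.2 hk₁K)]
    have h2 : G⁻¹ = up O k₂ * (Matrix.diagonal (fun i => (t i)⁻¹) * (up O k₁)⁻¹) :=
      Matrix.inv_eq_right_inv h1
    change up O k₂⁻¹ * (G⁻¹ * xx) = _
    rw [h2, ← Matrix.mul_assoc, ← Matrix.mul_assoc, hk₂K, Matrix.one_mul, adjugate_eq _ hk₁K,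
      Matrix.smul_mul, Matrix.mul_smul, smul_smul, inv_mul_cancel₀ hk₁K, one_smul, Matrix.mul_assoc]
  -- the value of the product of minors
  have hval : v (prr (up O k₂⁻¹ * y) w' l) = ∏ j, (v (t (w' j)))⁻¹ ^ l j := by
    rw [hk₂y, prr_smul hl, prr_left hl, map_mul, map_mul, map_pow, map_inv₀, hvunit k₁ hk₁, inv_one,
      one_pow, one_mul, map_prod]
    have h1 : v (prr ((up O k₁).adjugate * xx) w' l) = 1 := by
      have h2 : prr ((up O k₁).adjugate * xx) w' l =
          ((prr (k₁.adjugate * x.map j) w' l : O) : K) := by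
        have h3 : ((prr (k₁.adjugate * x.map j) w' l : O) : K) =
            O.subtype (prr (k₁.adjugate * x.map j) w' l) := rfl
        rw [h3, map_prr, Matrix.map_mul]
        congr 2
        have h4 := RingHom.map_adjugate O.subtype k₁
        exact h4.symm
      rw [h2]
      exact (O.valuation_eq_one_iff _).1 hprO
    rw [h1, mul_one]
    refine Finset.prod_congr rfl fun j _ => ?_
    rw [map_pow, map_inv₀]
  -- a member of the family which is not small
  obtain ⟨μ, hμ⟩ : ∃ μ, ∏ j, (v (t (w' j)))⁻¹ ^ l j ≤ v (coeff μ (hf l y)) := by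
    by_contra hno
    push Not at hno
    have h1 : prr (up O k₂⁻¹ * y) w' l =
        eval (fun x => ((up O k₂⁻¹).submatrix w' id) x.1 x.2) (hf l y) := by
      rw [eval_hf, ← prr_perm]
      rfl
    have h2 : v (prr (up O k₂⁻¹ * y) w' l) < ∏ j, (v (t (w' j)))⁻¹ ^ l j := by
      rw [h1, eval_eq']
      apply Valuation.map_sum_lt
      · exact Finset.prod_ne_zero_iff.2 fun j _ => pow_ne_zero _ (inv_ne_zero (hvt0 _))
      · intro μ _
        rw [map_mul]
        refine (mul_le_of_le_one_right' ?_).trans_lt (hno μ)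
        rw [map_prod]
        refine Finset.prod_le_one' fun z _ => ?_
        rw [map_pow]
        exact pow_le_one' (O.valuation_le_one (k₂⁻¹ (w' z.1) z.2)) _
    rw [hval] at h2
    exact lt_irrefl _ h2
  set c := ∏ j, v (t (w' j)) ^ l j with hc
  have hc0 : c ≠ 0 := Finset.prod_ne_zero_iff.2 fun j _ => pow_ne_zero _ (hvt0 _)
  have hcinv : ∏ j, (v (t (w' j)))⁻¹ ^ l j = c⁻¹ := by
    rw [hc, ← Finset.prod_inv_distrib]
    exact Finset.prod_congr rfl fun j _ => inv_pow _ _
  rw [hcinv] at hμ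
  have hcoef : ∀ α, v (coeff α (sm G F)) < c := by
    intro α
    have h1 := hlt α μ
    have h2 : v (coeff α (sm G F)) * c⁻¹ < 1 := (mul_le_mul_right hμ _).trans_lt h1
    rwa [← div_eq_mul_inv, div_lt_one₀ (zero_lt_iff.2 hc0)] at h2
  have hstar : ∀ α, (∏ x : Fin q × Fin q, v (t x.1) ^ α x) * v (coeff α (sm (up O k₁) F)) < c := by
    intro α
    have h1 := sm_lt O (k := k₂) hc0 hcoef α
    have h2 : sm (k₂.map fun x => (x : K)) (sm G F) = sm (Matrix.diagonal t) (sm (up O k₁) F) := by
      rw [sm_sm, sm_sm, ← hsm]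
      rfl
    rw [h2, sm_diagonal, map_mul, map_prod] at h1
    simpa only [map_pow] using h1
  obtain ⟨α, hα, hle⟩ := weights_contra hb hm (semi_sm hfs κ) (lc_sm hlc hκ) hl hld w'
    (fun i => v (t i)) hvt0
  have h1 := hstar α
  rw [hsupp α hα, mul_one] at h1
  exact absurd h1 (not_lt.2 hle)

end H18.GIT
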