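import Mathlib

/-!
# Linear substitutions, log canonical pairs
-/

set_option autoImplicit false
set_option linter.unusedSectionVars false

namespace H18.GIT

open MvPolynomial MeasureTheory

variable {n : Type*} [Fintype n]

section subst

variable {R S : Type*} [CommRing R] [CommRing S]

/-- The polynomial `f (g x)`. -/
noncomputable def su (g : Matrix n n R) : MvPolynomial n R →ₐ[R] MvPolynomial n R :=
  aeval fun i => ∑ k, C (g i k) * X k

theorem su_X (g : Matrix n n R) (i : n) : su g (X i) = ∑ k, C (g i k) * X k := by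
  rw [su, aeval_X]

theorem su_C (g : Matrix n n R) (c : R) : su g (C c) = C c := by
  rw [su, aeval_C]
  rfl

theorem eval_su (g : Matrix n n R) (f : MvPolynomial n R) (x : n → R) :
    eval x (su g f) = eval (g.mulVec x) f := by
  have h1 : (eval x).comp (su g).toRingHom = eval (g.mulVec x) := by
    apply MvPolynomial.ringHom_ext
    · intro c
      rw [RingHom.comp_apply]
      change eval x (su g (C c)) = _
      rw [su_C, eval_C, eval_C]
    · intro i
      rw [RingHom.comp_apply]
      change eval x (su g (X i)) = _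
      rw [su_X, map_sum, eval_X, Matrix.mulVec, dotProduct]
      exact Finset.sum_congr rfl fun k _ => by rw [map_mul, eval_C, eval_X]
  exact congrArg (fun φ : MvPolynomial n R →+* R => φ f) h1

theorem su_su (g h : Matrix n n R) (f : MvPolynomial n R) : su h (su g f) = su (g * h) f := by
  have h1 : (su h).comp (su g) = su (g * h) := by
    apply MvPolynomial.algHom_ext
    intro i
    rw [AlgHom.comp_apply, su_X, su_X, map_sum]
    simp only [map_mul, su_C, su_X, Finset.mul_sum]
    rw [Finset.sum_comm]
    refine Finset.sum_congr rfl fun k _ => ?_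
    rw [Matrix.mul_apply, map_sum, Finset.sum_mul]
    refine Finset.sum_congr rfl fun l _ => ?_
    rw [map_mul]
    ring
  exact congrArg (fun φ : MvPolynomial n R →ₐ[R] MvPolynomial n R => φ f) h1

theorem map_su (θ : R →+* S) (g : Matrix n n R) (f : MvPolynomial n R) :
    map θ (su g f) = su (g.map θ) (map θ f) := by
  have h1 : (map θ).comp (su g).toRingHom = (su (g.map θ)).toRingHom.comp (map θ) := by
    apply MvPolynomial.ringHom_ext
    · intro c
      rw [RingHom.comp_apply, RingHom.comp_apply]
      change map θ (su g (C c)) = su (g.map θ) (map θ (C c))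
      rw [su_C, map_C, su_C]
    · intro i
      rw [RingHom.comp_apply, RingHom.comp_apply]
      change map θ (su g (X i)) = su (g.map θ) (map θ (X i))
      rw [su_X, map_X, su_X, map_sum]
      exact Finset.sum_congr rfl fun k _ => by rw [map_mul, map_C, map_X]; rfl
  exact congrArg (fun φ : MvPolynomial n R →+* MvPolynomial n S => φ f) h1

theorem su_diagonal [DecidableEq n] (t : n → R) (f : MvPolynomial n R) (α : n →₀ ℕ) :
    coeff α (su (Matrix.diagonal t) f) = (∏ i, t i ^ α i) * coeff α f := by
  have h1 : ∀ i, su (Matrix.diagonal t) (X i : MvPolynomial n R) = C (t i) * X i := by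
    intro i
    rw [su_X, Finset.sum_eq_single i]
    · rw [Matrix.diagonal_apply_eq]
    · intro k _ hk
      rw [Matrix.diagonal_apply_ne _ hk.symm, C_0, zero_mul]
    · intro h
      exact absurd (Finset.mem_univ _) h
  induction f using MvPolynomial.induction_on' with
  | monomial β c =>
    have h2 : su (Matrix.diagonal t) (monomial β c) = monomial β (c * ∏ i, t i ^ β i) := by
      rw [monomial_eq, map_mul, su_C, Finsupp.prod, map_prod]
      simp only [map_pow, h1, mul_pow]
      rw [Finset.prod_mul_distrib, ← mul_assoc, monomial_eq, Finsupp.prod]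
      congr 1
      rw [map_mul, map_prod]
      congr 1
      simp only [map_pow]
      refine Finset.prod_subset (Finset.subset_univ _) fun i _ hi => ?_
      rw [Finsupp.notMem_support_iff.1 hi, pow_zero]
    rw [h2, coeff_monomial, coeff_monomial]
    by_cases h : β = α
    · rw [if_pos h, if_pos h, h, mul_comm]
    · rw [if_neg h, if_neg h, mul_zero]
  | add p q hp hq => rw [map_add, coeff_add, hp, hq, coeff_add, mul_add]

theorem su_isHomogeneous {g : Matrix n n R} {f : MvPolynomial n R} {d : ℕ} (hf : f.IsHomogeneous d) :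
    (su g f).IsHomogeneous d := by
  have h1 := hf.aeval (fun i => ∑ k, C (g i k) * X k) (n := 1) (fun i =>
    IsHomogeneous.sum _ _ _ fun k _ => by
      simpa using (isHomogeneous_C n (g i k)).mul (isHomogeneous_X R k))
  rw [one_mul] at h1
  exact h1

end subst

section valuation

variable {K : Type*} [Field K] (O : ValuationSubring K)

theorem su_lt {k : Matrix n n O} {f : MvPolynomial n K} {c : O.ValueGroup} (hc : c ≠ 0)
    (hf : ∀ α, O.valuation (coeff α f) < c) (β : n →₀ ℕ) :
    O.valuation (coeff β (su (k.map (fun x => (x : K))) f)) < c := by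
  have h1 : su (k.map (fun x => (x : K))) f =
      ∑ α ∈ f.support, C (coeff α f) * su (k.map (fun x => (x : K))) (monomial α 1) := by
    conv_lhs => rw [f.as_sum]
    rw [map_sum]
    refine Finset.sum_congr rfl fun α _ => ?_
    rw [← su_C (k.map (fun x => (x : K))) (coeff α f), ← map_mul, C_mul_monomial, mul_one]
  rw [h1, coeff_sum]
  apply Valuation.map_sum_lt _ hc
  intro α _
  rw [coeff_C_mul, map_mul]
  have h2 : O.valuation (coeff β (su (k.map (fun x => (x : K))) (monomial α 1))) ≤ 1 := by
    have h3 : su (k.map (fun x => (x : K))) (monomial α (1 : K)) =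
        map O.subtype (su k (monomial α 1)) := by
      rw [map_su, map_monomial]
      rfl
    rw [h3, coeff_map, O.valuation_le_one_iff]
    exact (coeff β (su k (monomial α 1))).2
  exact (mul_le_of_le_one_right' h2).trans_lt (hf α)

end valuation

section lc

/-- The pair formed by the projective space of `n → ℂ` and the divisor `(1 / m) div f` is log
canonical: for all `c < 1` the function `|f| ^ (-2 c / m)` is locally integrable on the set of the
homogeneous coordinates `x ≠ 0` of points. -/
def IsLogCanonical (m : ℕ) (f : MvPolynomial n ℂ) : Prop :=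
  ∀ x : n → ℂ, x ≠ 0 → ∀ c : ℝ, c < 1 →
    ∃ r > 0, ∫⁻ y in Metric.ball x r, ‖eval y f‖ₑ ^ (-(2 * c / m)) < ⊤

theorem IsLogCanonical.su [DecidableEq n] {m : ℕ} {f : MvPolynomial n ℂ} (hf : IsLogCanonical m f)
    {g : Matrix n n ℂ} (hg : g.det ≠ 0) : IsLogCanonical m (su g f) := by
  intro x hx c hc
  let e : (n → ℂ) ≃ₗ[ℂ] (n → ℂ) := Matrix.toLinearEquiv' g
    ((Matrix.isUnit_iff_isUnit_det g).2 (isUnit_iff_ne_zero.2 hg)).invertible
  have he : ∀ y, e y = g.mulVec y := fun y => rfl
  let L : (n → ℂ) →ₗ[ℝ] (n → ℂ) := (e.restrictScalars ℝ : (n → ℂ) ≃ₗ[ℝ] (n → ℂ))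
  have hL : ∀ y, L y = g.mulVec y := fun y => rfl
  have hdet : LinearMap.det L ≠ 0 := (LinearEquiv.isUnit_det' (e.restrictScalars ℝ)).ne_zero
  have hLc : Continuous L := L.continuous_of_finiteDimensional
  have hgx : L x ≠ 0 := by
    intro h
    apply hx
    have : e x = 0 := h
    exact (LinearEquiv.map_eq_zero_iff e).1 this
  obtain ⟨r, hr, hfin⟩ := hf (L x) hgx c hc
  obtain ⟨r', hr', hsub⟩ := Metric.mem_nhds_iff.1
    (hLc.continuousAt.preimage_mem_nhds (Metric.ball_mem_nhds (L x) hr))
  refine ⟨r', hr', ?_⟩
  set φ : (n → ℂ) → ENNReal := fun y => ‖eval y f‖ₑ ^ (-(2 * c / m)) with hφ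
  have hφm : Measurable φ := by
    have h1 : Continuous fun y : n → ℂ => eval y f := MvPolynomial.continuous_eval f
    exact (h1.measurable.enorm).pow_const _
  calc ∫⁻ y in Metric.ball x r', ‖eval y (GIT.su g f)‖ₑ ^ (-(2 * c / m))
      = ∫⁻ y in Metric.ball x r', φ (L y) := by
        refine lintegral_congr fun y => ?_
        rw [eval_su, hφ]
        rfl
    _ ≤ ∫⁻ y in L ⁻¹' Metric.ball (L x) r, φ (L y) := lintegral_mono_set hsub
    _ = ∫⁻ y in Metric.ball (L x) r, φ y ∂(Measure.map L volume) := by
        rw [setLIntegral_map Metric.isOpen_ball.measurableSet hφm hLc.measurable]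
    _ < ⊤ := by
        rw [Measure.map_linearMap_addHaar_eq_smul_addHaar volume hdet, Measure.restrict_smul,
          lintegral_smul_measure]
        exact ENNReal.mul_lt_top ENNReal.ofReal_lt_top hfin

end lc

end H18.GIT
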