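import Pool.Agent.H18.GIT.Val
import Pool.Agent.H18.GIT.Smith
import Pool.Agent.H18.GIT.Gordan
import Pool.Agent.H18.GIT.Subst
import Pool.Graph.R_pool_sql_team_seeded_3997aac3.Q47.TB.Lc

/-!
# Log canonical pairs `(P^n, Δ)` with a point are semistable
-/

set_option autoImplicit false
set_option linter.unusedSectionVars false

namespace H18.GIT

open MvPolynomial

variable {n : Type*} [Fintype n] [DecidableEq n]

/-- The generic matrix. -/
noncomputable def gen (n : Type*) : Matrix n n (MvPolynomial (n × n) ℂ) := Matrix.of fun i j => X (i, j)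

theorem det_gen : (gen n).det = dt n := rfl

/-- The coefficient of `f (g x)` as a polynomial in `g`. -/
noncomputable def cf (f : MvPolynomial n ℂ) (α : n →₀ ℕ) : MvPolynomial (n × n) ℂ :=
  coeff α (su (gen n) (map C f))

/-- The coordinates of `adj(g) x` as polynomials in `g`. -/
noncomputable def pt (x : n → ℂ) (i : n) : MvPolynomial (n × n) ℂ :=
  ((gen n).adjugate.mulVec fun j => C (x j)) i

theorem eval_cf (g : Matrix n n ℂ) (f : MvPolynomial n ℂ) (α : n →₀ ℕ) :
    eval (fun x => g x.1 x.2) (cf f α) = coeff α (su g f) := by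
  rw [cf, ← coeff_map, map_su, map_map]
  have h1 : (eval fun x : n × n => g x.1 x.2).comp C = RingHom.id ℂ := by
    ext c
    simp
  have h2 : (gen n).map (eval fun x : n × n => g x.1 x.2) = g := by
    ext i j
    simp [gen]
  rw [h1, h2, map_id]

theorem eval_pt (g : Matrix n n ℂ) (x : n → ℂ) (i : n) :
    eval (fun x => g x.1 x.2) (pt x i) = (g.adjugate.mulVec x) i := by
  have h2 : (eval fun x : n × n => g x.1 x.2).mapMatrix (gen n) = g := by
    ext i j
    simp [gen]
  rw [pt, Matrix.mulVec, dotProduct, map_sum, Matrix.mulVec, dotProduct]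
  refine Finset.sum_congr rfl fun j _ => ?_
  rw [map_mul, eval_C]
  congr 1
  have h3 := RingHom.map_adjugate (eval fun x : n × n => g x.1 x.2) (gen n)
  rw [h2] at h3
  rw [← h3]
  rfl

theorem cf_eq_zero {f : MvPolynomial n ℂ} {d : ℕ} (hf : f.IsHomogeneous d) {α : n →₀ ℕ}
    (hα : α.degree ≠ d) : cf f α = 0 :=
  (su_isHomogeneous (hf.map C)).coeff_eq_zero hα

/-- A prime ideal which does not contain the determinant has an invertible zero. -/
theorem exists_zero {k : Type*} [CommRing k] [IsDomain k] (θ : MvPolynomial (n × n) ℂ →+* k)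
    (h : θ (dt n) ≠ 0) :
    ∃ κ : Matrix n n ℂ, κ.det ≠ 0 ∧ ∀ P, θ P = 0 → eval (fun x => κ x.1 x.2) P = 0 := by
  by_contra hcon
  push Not at hcon
  have h1 : dt n ∈ vanishingIdeal ℂ (zeroLocus ℂ (RingHom.ker θ)) := by
    rw [mem_vanishingIdeal_iff]
    intro x hx
    by_contra h2
    have h3 : (fun y : n × n => (Matrix.of fun i j => x (i, j)) y.1 y.2) = x := by
      funext y
      rfl
    have h4 := eval_dt (Matrix.of fun i j => x (i, j))
    rw [h3] at h4
    obtain ⟨P, hP, hP0⟩ := hcon (Matrix.of fun i j => x (i, j)) (by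
      rw [← h4]
      rwa [← coe_aeval_eq_eval])
    rw [h3] at hP0
    apply hP0
    have h5 := hx P hP
    rwa [← coe_aeval_eq_eval]
  have h6 : (RingHom.ker θ).IsPrime := RingHom.ker_isPrime θ
  rw [vanishingIdeal_zeroLocus_eq_radical, h6.radical] at h1
  exact h h1

theorem semistable_val {f : MvPolynomial n ℂ} {d m p : ℕ} (hm : 1 ≤ m) (hf : f.IsHomogeneous d)
    (hlc : IsLogCanonical m f) (hp : m * Fintype.card n + p = d) {x : n → ℂ} (hx : x ≠ 0)
    (O : ValuationSubring (FractionRing (MvPolynomial (n × n) ℂ)))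
    (hO : ∀ c : ℂ, algebraMap ℂ (FractionRing (MvPolynomial (n × n) ℂ)) c ∈ O) :
    ∃ (α : n →₀ ℕ) (i : n), α.degree = d ∧
      1 ≤ O.valuation (algebraMap _ (FractionRing (MvPolynomial (n × n) ℂ)) (cf f α * pt x i ^ p) /
        (algebraMap _ (FractionRing (MvPolynomial (n × n) ℂ)) (dt n)) ^ (m + p)) := by
  classical
  by_contra hcon
  push Not at hcon
  set K := FractionRing (MvPolynomial (n × n) ℂ)
  let ι : MvPolynomial (n × n) ℂ →+* K := algebraMap _ K
  have hι : Function.Injective ι := IsFractionRing.injective _ K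
  let v := O.valuation
  let G : Matrix n n K := (gen n).map ι
  have hGdet : G.det = ι (dt n) := by
    have := RingHom.map_det ι (gen n)
    rw [← det_gen, this]
    rfl
  have hG : G.det ≠ 0 := by
    rw [hGdet]
    exact fun h => dt_ne_zero (hι (by rw [h, map_zero]))
  have hvG : v G.det ≠ 0 := by rwa [Ne, map_eq_zero]
  let F : MvPolynomial n K := map (ι.comp C) f
  let xx : n → K := fun j => ι (C (x j))
  let y : n → K := G⁻¹.mulVec xx
  have hxy : G.mulVec y = xx := by
    rw [Matrix.mulVec_mulVec, Matrix.mul_nonsing_inv _ (isUnit_iff_ne_zero.2 hG), Matrix.one_mulVec]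
  have hcf : ∀ α, ι (cf f α) = coeff α (su G F) := by
    intro α
    rw [cf, ← coeff_map, map_su, map_map]
  have hpt : ∀ i, ι (pt x i) = G.det * y i := by
    intro i
    have h1 : ι (pt x i) = (G.adjugate.mulVec xx) i := by
      rw [pt, Matrix.mulVec, dotProduct, map_sum, Matrix.mulVec, dotProduct]
      refine Finset.sum_congr rfl fun j _ => ?_
      rw [map_mul]
      congr 1
      have h3 := RingHom.map_adjugate ι (gen n)
      change ι ((gen n).adjugate i j) = G.adjugate i j
      have h4 : G.adjugate = ι.mapMatrix (gen n).adjugate := h3.symm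
      rw [h4]
      rfl
    rw [h1]
    have h2 : G.adjugate = G.det • G⁻¹ := by
      rw [Matrix.inv_def, smul_smul, Ring.mul_inverse_cancel _ (isUnit_iff_ne_zero.2 hG), one_smul]
    rw [h2, Matrix.smul_mulVec, Pi.smul_apply, smul_eq_mul]
  have hlt : ∀ α i, v (coeff α (su G F)) * v (y i) ^ p < v G.det ^ m := by
    intro α i
    by_cases hα : α.degree = d
    · have h1 := hcon α i hα
      have h2 : algebraMap _ K (cf f α * pt x i ^ p) / (algebraMap _ K (dt n)) ^ (m + p) =
          coeff α (su G F) * y i ^ p / G.det ^ m := by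
        change ι (cf f α * pt x i ^ p) / (ι (dt n)) ^ (m + p) = _
        rw [map_mul, map_pow, hcf, hpt, ← hGdet, mul_pow, pow_add, div_eq_div_iff
          (mul_ne_zero (pow_ne_zero _ hG) (pow_ne_zero _ hG)) (pow_ne_zero _ hG)]
        ring
      rw [h2] at h1
      change v _ < 1 at h1
      rw [map_div₀, map_mul, map_pow, map_pow, div_lt_one₀ (zero_lt_iff.2 (pow_ne_zero _ hvG))] at h1
      exact h1
    · rw [← hcf, cf_eq_zero hf hα, map_zero, map_zero, zero_mul]
      exact zero_lt_iff.2 (pow_ne_zero _ hvG)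
  obtain ⟨k₁, k₂, t, hk₁, hk₂, hsm⟩ := smith O G hG
  have hvunit : ∀ k : Matrix n n O, IsUnit k.det → v (up O k).det = 1 := by
    intro k hk
    have h1 : (up O k).det = ((k.det : O) : K) := (RingHom.map_det O.subtype k).symm
    rw [h1]
    exact (O.valuation_eq_one_iff _).1 hk
  have hdet : v G.det = ∏ i, v (t i) := by
    have h1 := congrArg (fun A => v (Matrix.det A)) hsm
    simp only [Matrix.det_mul, map_mul, Matrix.det_diagonal] at h1
    rw [hvunit k₁ hk₁, hvunit k₂ hk₂, one_mul, mul_one, map_prod] at h1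
    exact h1
  have hxne : Nonempty n := by
    by_contra hne
    rw [not_nonempty_iff] at hne
    exact hx (Subsingleton.elim _ _)
  obtain ⟨i₀, -, hi₀⟩ := Finset.exists_max_image Finset.univ (fun i => v (t i)) Finset.univ_nonempty
  obtain ⟨i₁, -, hi₁⟩ := Finset.exists_max_image Finset.univ (fun i => v (y i)) Finset.univ_nonempty
  set τ := v (t i₀) with hτ
  set s := v (y i₁) with hs
  have hcoe : ∀ (k : Matrix n n O) (u : n → K) (b : O.ValueGroup), (∀ i, v (u i) ≤ b) →
      ∀ i, v ((up O k).mulVec u i) ≤ b := by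
    intro k u b hb i
    rw [Matrix.mulVec, dotProduct]
    apply Valuation.map_sum_le
    intro j _
    rw [map_mul]
    exact (mul_le_of_le_one_left' (O.valuation_le_one (k i j))).trans (hb j)
  have hone : 1 ≤ τ * s := by
    let z : n → K := (up O k₂⁻¹).mulVec y
    have hz : (up O k₂).mulVec z = y := by
      rw [Matrix.mulVec_mulVec, ← up_mul, Matrix.mul_nonsing_inv _ hk₂]
      have : up O (1 : Matrix n n O) = 1 := by
        ext i j
        rw [up, Matrix.map_apply, Matrix.one_apply, Matrix.one_apply]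
        split_ifs <;> simp
      rw [this, Matrix.one_mulVec]
    have hzs : ∀ i, v (z i) ≤ s := hcoe _ _ _ fun i => hi₁ i (Finset.mem_univ i)
    have hxz : xx = (up O k₁).mulVec ((Matrix.diagonal t).mulVec z) := by
      rw [Matrix.mulVec_mulVec, ← hsm, ← Matrix.mulVec_mulVec, hz, hxy]
    have hb : ∀ i, v (xx i) ≤ τ * s := by
      rw [hxz]
      apply hcoe
      intro i
      rw [Matrix.mulVec_diagonal, map_mul]
      exact mul_le_mul' (hi₀ i (Finset.mem_univ i)) (hzs i)
    obtain ⟨j, hj⟩ := Function.ne_iff.1 hx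
    refine le_trans (le_of_eq ?_) (hb j)
    have h1 : xx j = algebraMap ℂ K (x j) := rfl
    have h2 : v (xx j) ≤ 1 := by
      rw [h1]
      exact (O.valuation_le_one_iff _).2 (hO _)
    have h3 : v (xx j)⁻¹ ≤ 1 := by
      rw [h1, ← map_inv₀]
      exact (O.valuation_le_one_iff _).2 (hO _)
    have h4 : xx j ≠ 0 := by
      rw [h1]
      intro h
      exact hj ((algebraMap ℂ K).injective (by rw [h, Pi.zero_apply, map_zero]))
    have h5 : v (xx j) * v (xx j)⁻¹ = 1 := by
      rw [← map_mul, mul_inv_cancel₀ h4, map_one]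
    refine (le_antisymm h2 ?_).symm
    calc (1 : O.ValueGroup) = v (xx j) * v (xx j)⁻¹ := h5.symm
      _ ≤ v (xx j) * 1 := by gcongr
      _ = _ := mul_one _
  have hs0 : s ≠ 0 := fun h => by
    rw [h, mul_zero] at hone
    exact absurd hone (not_le.2 zero_lt_one)
  have hτ0 : τ ≠ 0 := fun h => by
    rw [h, zero_mul] at hone
    exact absurd hone (not_le.2 zero_lt_one)
  have ht0 : ∀ i, v (t i) ≠ 0 := by
    intro i h
    apply hvG
    rw [hdet]
    exact Finset.prod_eq_zero (Finset.mem_univ i) h
  set c := (∏ i, v (t i)) ^ m * τ ^ p with hc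
  have hc0 : c ≠ 0 := mul_ne_zero (pow_ne_zero _ (Finset.prod_ne_zero_iff.2 fun i _ => ht0 i))
    (pow_ne_zero _ hτ0)
  have hcoef : ∀ α, v (coeff α (su G F)) < c := by
    intro α
    have h1 := hlt α i₁
    rw [hdet] at h1
    have h2 : v (coeff α (su G F)) ≤ v (coeff α (su G F)) * (s ^ p * τ ^ p) := by
      have : (1 : O.ValueGroup) ≤ s ^ p * τ ^ p := by
        rw [← mul_pow, mul_comm s]
        exact one_le_pow_of_one_le' hone p
      exact le_mul_of_one_le_right' this
    refine h2.trans_lt ?_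
    rw [← mul_assoc]
    exact mul_lt_mul_of_pos_right h1 (zero_lt_iff.2 (pow_ne_zero _ hτ0))
  have hstar : ∀ α, (∏ i, v (t i) ^ α i) * v (coeff α (su (up O k₁) F)) < c := by
    intro α
    have h1 := su_lt O (k := k₂) hc0 hcoef α
    have h2 : su (k₂.map fun x => (x : K)) (su G F) = su (Matrix.diagonal t) (su (up O k₁) F) := by
      rw [su_su, su_su, ← hsm]
      rfl
    rw [h2, su_diagonal, map_mul, map_prod] at h1
    simpa only [map_pow] using h1
  -- specialization
  let j : ℂ →+* O := (algebraMap ℂ K).codRestrict O.toSubring hO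
  let res : O →+* IsLocalRing.ResidueField O := IsLocalRing.residue O
  let θ : MvPolynomial (n × n) ℂ →+* IsLocalRing.ResidueField O :=
    eval₂Hom (res.comp j) fun y => res (k₁ y.1 y.2)
  have hgenθ : (gen n).map θ = k₁.map res := by
    ext a b
    simp [gen, θ]
  have hθcf : ∀ α, θ (cf f α) = res (coeff α (su k₁ (map j f))) := by
    intro α
    have hθC : θ.comp C = res.comp j := by
      ext c
      simp [θ]
    rw [cf, ← coeff_map, map_su, map_map, ← coeff_map, map_su, map_map, hgenθ, hθC]
  have hθdt : θ (dt n) ≠ 0 := by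
    have h1 : θ (dt n) = res k₁.det := by
      rw [← det_gen, RingHom.map_det, RingHom.map_det]
      congr 1
    rw [h1]
    exact (hk₁.map res).ne_zero
  obtain ⟨κ, hκ, hker⟩ := exists_zero θ hθdt
  have hcoeO : ∀ α, ((coeff α (su k₁ (map j f)) : O) : K) = coeff α (su (up O k₁) F) := by
    intro α
    have h1 : ((coeff α (su k₁ (map j f)) : O) : K) =
        coeff α (map O.subtype (su k₁ (map j f))) := by
      rw [coeff_map]
      rfl
    rw [h1, map_su, map_map]
    rfl
  have hsupp : ∀ α ∈ (su κ f).support, v (coeff α (su (up O k₁) F)) = 1 := by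
    intro α hα
    rw [← hcoeO]
    rw [← O.valuation_eq_one_iff]
    by_contra hnu
    have h1 : res (coeff α (su k₁ (map j f))) = 0 := by
      rw [IsLocalRing.residue_eq_zero_iff, IsLocalRing.mem_maximalIdeal]
      exact hnu
    rw [← hθcf] at h1
    have h2 := hker _ h1
    rw [eval_cf] at h2
    exact (mem_support_iff.1 hα) h2
  have hlcκ := hlc.su hκ
  have hlcT : Q47.TB.IsLogCanonical {σ : Set n | σ ≠ Set.univ} m (su κ f) := by
    intro u hu c hc
    apply hlcκ u _ c hc
    rintro rfl
    apply hu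
    ext i
    simp
  have hhom := su_isHomogeneous (g := κ) hf
  obtain ⟨α₀, hα₀, -⟩ := Q47.TB.weights_of_lc hm hlcT 0 (by
    simp only [Pi.zero_apply, ne_eq, not_true_eq_false, Set.ofPred_false]
    exact fun h => Set.empty_ne_univ h)
  let T : n → O.ValueGroup := fun i => v (t i) / τ
  obtain ⟨a, ha₀, ha⟩ := exists_weights T (fun i => div_ne_zero (ht0 i) hτ0)
    (fun i => div_le_one_of_le₀ (hi₀ i (Finset.mem_univ i)) zero_le) i₀ (div_self hτ0) m
    (su κ f).support ⟨α₀, hα₀⟩ (by
      intro α hα
      have h1 := hstar α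
      rw [hsupp α hα, mul_one] at h1
      have hdeg : ∑ i, α i = d := by
        have := hhom.degree_eq_sum_deg_support hα
        rw [this, eq_comm]
        exact Finset.sum_subset (Finset.subset_univ _) fun i _ hi => Finsupp.notMem_support_iff.1 hi
      have h2 : ∏ i, T i ^ α i = (∏ i, v (t i) ^ α i) / τ ^ d := by
        simp only [T, div_pow]
        rw [Finset.prod_div_distrib, Finset.prod_pow_eq_pow_sum, hdeg]
      have h3 : ∏ i, T i ^ m = (∏ i, v (t i)) ^ m * τ ^ p / τ ^ d := by
        simp only [T, div_pow]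
        rw [Finset.prod_div_distrib, Finset.prod_pow_eq_pow_sum, Finset.sum_const, Finset.card_univ,
          smul_eq_mul, Finset.prod_pow, ← hp, pow_add, mul_comm (Fintype.card n) m, mul_div_mul_right _ _ (pow_ne_zero _ hτ0)]
      rw [h2, h3]
      exact (div_lt_div_iff_of_pos_right (zero_lt_iff.2 (pow_ne_zero _ hτ0))).2 h1)
  obtain ⟨α, hα, hle⟩ := Q47.TB.weights_of_lc hm hlcT a (by
    intro h
    have : i₀ ∈ {i | a i ≠ 0} := by rw [h]; trivial
    exact this ha₀)
  exact absurd (ha α hα) (not_lt.2 hle)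

end H18.GIT
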