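import Pool.Agent.H18.GIT.Cov

/-!
# Covariants of uniform degree
-/

set_option autoImplicit false
set_option linter.unusedSectionVars false

namespace H18.GIT

open MvPolynomial

variable {q : ℕ}

theorem lt_genA (h : Matrix (Fin q) (Fin q) ℂ) :
    (genA ℂ q).map (lt h) = h.map C * genA ℂ q := by
  ext1 i j
  rw [Matrix.map_apply, genA, Matrix.of_apply, lt_X, Matrix.mul_apply]
  rfl

theorem lt_cfA (h : Matrix (Fin q) (Fin q) ℂ) (f : MvPolynomial (Fin q × Fin q) ℂ)
    (α : Fin q × Fin q →₀ ℕ) : lt h (cfA f α) = cfA (sm h f) α := by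
  have h1 : lt h (cfA f α) = (lt h).toRingHom (cfA f α) := rfl
  have hC : (lt h).toRingHom.comp C = (C : ℂ →+* MvPolynomial (Fin q × Fin q) ℂ) := by
    ext c
    change coeff _ (lt h (C c)) = _
    rw [lt_C]
  have hg : (genA ℂ q).map (lt h).toRingHom = h.map C * genA ℂ q := lt_genA h
  rw [h1, cfA, ← coeff_map, map_sm, map_map, hC, hg, cfA, map_sm, sm_sm]

theorem lt_hA {l : Fin q → ℕ} (hl : Antitone l) (h : Matrix (Fin q) (Fin q) ℂ)
    (x : Matrix (Fin q) (Fin q) ℂ) (μ : Fin q × Fin q →₀ ℕ) :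
    lt h (hA l (h * x) μ) = C (h.det ^ ∑ j, l j) * hA l x μ := by
  have h1 : lt h (hA l (h * x) μ) = (lt h).toRingHom (hA l (h * x) μ) := rfl
  have hC : (C : ℂ → MvPolynomial (Fin q × Fin q) ℂ) = fun c => (lt h).toRingHom (C c) := by
    funext c
    exact (lt_C h c).symm
  have hg : (genA ℂ q).map (lt h).toRingHom = h.map C * genA ℂ q := lt_genA h
  rw [h1, hA, ← coeff_map, map_hf, Matrix.map_mul]
  have h2 := RingHom.map_adjugate (lt h).toRingHom (genA ℂ q)
  rw [RingHom.mapMatrix_apply, RingHom.mapMatrix_apply, hg, Matrix.adjugate_mul_distrib] at h2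
  have h3 : ((h * x).map C).map (lt h).toRingHom = (h * x).map (C : ℂ →+* MvPolynomial (Fin q × Fin q) ℂ) := by
    ext1 i j
    exact lt_C h _
  rw [h2, h3, Matrix.mul_assoc]
  have h4 : (h.map C).adjugate * (h * x).map (C : ℂ →+* MvPolynomial (Fin q × Fin q) ℂ) =
      (C h.det : MvPolynomial (Fin q × Fin q) ℂ) • x.map C := by
    have h5 := RingHom.map_adjugate (C : ℂ →+* MvPolynomial (Fin q × Fin q) ℂ) h
    rw [RingHom.mapMatrix_apply, RingHom.mapMatrix_apply] at h5
    rw [← h5, ← Matrix.map_mul, ← Matrix.mul_assoc, Matrix.adjugate_mul, Matrix.smul_mul,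
      Matrix.one_mul]
    ext1 i j
    rw [Matrix.map_apply, Matrix.smul_apply, Matrix.smul_apply, smul_eq_mul, smul_eq_mul, map_mul]
    rfl
  rw [h4, Matrix.mul_smul, hf_smul hl, coeff_C_mul, ← C_pow]
  rfl

theorem val_left {l : Fin q → ℕ} (hl : Antitone l) {Q : MvPolynomial (Ix q) ℂ} {N : ℕ}
    (hQ : Q.IsHomogeneous N) {h : Matrix (Fin q) (Fin q) ℂ} (hh : h.det ≠ 0)
    (f : MvPolynomial (Fin q × Fin q) ℂ) (x : Matrix (Fin q) (Fin q) ℂ) :
    val l ((∑ j, l j) * N) Q (sm h f) x = val l ((∑ j, l j) * N) Q f (h * x) := by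
  set s := (∑ j, l j) * N with hs
  have h1 : lt h (aeval (PA l f (h * x)) Q) = C ((h.det ^ ∑ j, l j) ^ N) * aeval (PA l (sm h f) x) Q := by
    have h2 : lt h (aeval (PA l f (h * x)) Q) =
        aeval (fun z => PA l (sm h f) x z * C (h.det ^ ∑ j, l j)) Q := by
      rw [← AlgHom.comp_apply, comp_aeval]
      congr 2
      funext z
      rw [PA, map_mul, lt_cfA, lt_hA hl, PA]
      ring
    rw [h2, aeval_mul_of_homogeneous _ _ hQ, ← C_pow, mul_comm]
  have h2 : h.det ^ s * val l s Q f (h * x) = h.det ^ s * val l s Q (sm h f) x := by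
    have h3 : ap (dt (Fin q) ^ s) (lt h (aeval (PA l f (h * x)) Q)) =
        h.det ^ s * val l s Q f (h * x) := by
      rw [← ap_lt, map_pow, lt_dt, Matrix.det_transpose, mul_pow, ← C_pow, ← smul_eq_C_mul, map_smul,
        LinearMap.smul_apply, smul_eq_mul, val, apA_eq]
    rw [← h3, h1, ← smul_eq_C_mul, map_smul, smul_eq_mul, val, apA_eq, ← pow_mul]
  exact (mul_left_cancel₀ (pow_ne_zero _ hh) h2).symm

/-- The exponents of degree `D`. -/
abbrev Jx (q D : ℕ) : Type := {β : Fin q × Fin q →₀ ℕ // β.degree = D}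

instance (q D : ℕ) : Finite (Jx q D) := (Finsupp.finite_of_degree_eq D).to_subtype

noncomputable instance (q D : ℕ) : Fintype (Jx q D) := Fintype.ofFinite _

/-- The polynomial functions of the coefficients of a form of degree `D`. -/
abbrev Cf (q D : ℕ) : Type := MvPolynomial (Jx q D) ℂ

/-- The value of a polynomial function at the coefficients of `f`. -/
noncomputable def spec (D : ℕ) (f : MvPolynomial (Fin q × Fin q) ℂ) : Cf q D →ₐ[ℂ] ℂ :=
  aeval fun β => coeff β.1 f

/-- The form in `x` which is obtained by putting in the coefficients of `f`. -/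
noncomputable def evC {D : ℕ} (c : MvPolynomial (Fin q × Fin q) (Cf q D))
    (f : MvPolynomial (Fin q × Fin q) ℂ) : MvPolynomial (Fin q × Fin q) ℂ :=
  map (spec D f).toRingHom c

/-- `c` is a covariant of degree `N` of forms of degree `D`. -/
structure IsCov (b : Fin q → ℕ) (l : Fin q → ℕ) (D N : ℕ) (c : MvPolynomial (Fin q × Fin q) (Cf q D)) :
    Prop where
  scale : ∀ f : MvPolynomial (Fin q × Fin q) ℂ, f.IsHomogeneous D →
    ∀ (x : Matrix (Fin q) (Fin q) ℂ) (j : Fin q) (t : ℂ),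
    Q47.FL.ev (x.updateCol j fun i => t * x i j) (evC c f) = (t ^ l j) ^ N * Q47.FL.ev x (evC c f)
  shear : ∀ f : MvPolynomial (Fin q × Fin q) ℂ, f.IsHomogeneous D →
    ∀ (x : Matrix (Fin q) (Fin q) ℂ) (j k : Fin q) (t : ℂ), j ≠ k → b j ≤ b k →
    Q47.FL.ev (x.updateCol k fun i => x i k + t * x i j) (evC c f) = Q47.FL.ev x (evC c f)
  smul : ∀ f : MvPolynomial (Fin q × Fin q) ℂ, f.IsHomogeneous D →
    ∀ a : ℂ, evC c (C a * f) = C (a ^ N) * evC c f
  left : ∀ f : MvPolynomial (Fin q × Fin q) ℂ, f.IsHomogeneous D →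
    ∀ h : Matrix (Fin q) (Fin q) ℂ, h.det ≠ 0 → evC c (sm h f) = sm h (evC c f)

/-- The universal form of degree `D`. -/
noncomputable def fu (q D : ℕ) :
    MvPolynomial (Fin q × Fin q) (MvPolynomial (Fin q × Fin q) (Cf q D)) :=
  ∑ β : Jx q D, monomial β.1 (C (X β))

/-- The covariant which is given by `Q`. -/
noncomputable def cov (l : Fin q → ℕ) (D s : ℕ) (Q : MvPolynomial (Ix q) ℂ) :
    MvPolynomial (Fin q × Fin q) (Cf q D) :=
  val l s Q (fu q D) (genA (Cf q D) q)

theorem map_fu {D : ℕ} {f : MvPolynomial (Fin q × Fin q) ℂ} (hf : f.IsHomogeneous D) :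
    map (map (spec D f).toRingHom) (fu q D) = map C f := by
  classical
  rw [fu, map_sum]
  conv_rhs => rw [f.as_sum, map_sum]
  simp only [map_monomial, map_C]
  have h1 : ∀ β : Jx q D, (spec D f).toRingHom (X β) = coeff β.1 f := by
    intro β
    change spec D f (X β) = _
    rw [spec, aeval_X]
  simp only [h1]
  have h2 : ∑ β : Jx q D, monomial β.1 (C (coeff β.1 f) : MvPolynomial (Fin q × Fin q) ℂ) =
      ∑ β ∈ (Finset.univ : Finset (Jx q D)).image Subtype.val,
        monomial β (C (coeff β f) : MvPolynomial (Fin q × Fin q) ℂ) := by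
    rw [Finset.sum_image (fun a _ c _ h => Subtype.ext h)]
  rw [h2]
  refine (Finset.sum_subset (fun α hα => ?_) fun β _ hβ => ?_).symm
  · refine Finset.mem_image.2 ⟨⟨α, ?_⟩, Finset.mem_univ _, rfl⟩
    by_contra h3
    exact (mem_support_iff.1 hα) (hf.coeff_eq_zero h3)
  · rw [notMem_support_iff.1 hβ, C_0, monomial_zero]

theorem eval_cov (l : Fin q → ℕ) {D : ℕ} (s : ℕ) (Q : MvPolynomial (Ix q) ℂ)
    {f : MvPolynomial (Fin q × Fin q) ℂ} (hf : f.IsHomogeneous D) (x : Matrix (Fin q) (Fin q) ℂ) :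
    Q47.FL.ev x (evC (cov l D s Q) f) = val l s Q f x := by
  have h1 : evC (cov l D s Q) f = val l s Q (map C f) (genA ℂ q) := by
    have h2 : evC (cov l D s Q) f = (mapAlgHom (spec D f)) (cov l D s Q) := rfl
    rw [h2, cov, map_val]
    congr 1
    · exact map_fu hf
    · exact map_genA (spec D f).toRingHom q
  rw [h1]
  have h3 : Q47.FL.ev x (val l s Q (map C f) (genA ℂ q)) =
      (aeval (fun y : Fin q × Fin q => x y.1 y.2) : MvPolynomial (Fin q × Fin q) ℂ →ₐ[ℂ] ℂ)
        (val l s Q (map C f) (genA ℂ q)) := by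
    rw [Q47.FL.ev, ← coe_aeval_eq_eval]
    rfl
  rw [h3, map_val]
  congr 1
  · rw [map_map]
    have h4 : ((aeval (fun y : Fin q × Fin q => x y.1 y.2) :
        MvPolynomial (Fin q × Fin q) ℂ →ₐ[ℂ] ℂ).toRingHom).comp C = RingHom.id ℂ := by
      ext c
      simp
    rw [h4, map_id]
  · ext1 i j
    simp [genA]

end H18.GIT
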