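import Pool.Agent.H18.GIT.Apolar

/-!
# Invariants from valuations
-/

set_option autoImplicit false
set_option linter.unusedSectionVars false

namespace H18.GIT

open MvPolynomial

/-- If the ideal generated by the elements `w i` in the subring generated by a subring `A` and the
`w i` is proper, then there is a valuation ring which contains `A` and such that the `w i` are in the
maximal ideal. -/
theorem exists_valuationSubring {K : Type*} [Field K] [Algebra ℂ K] {I : Type*} (w : I → K)
    (h : ∀ Q : MvPolynomial I ℂ, constantCoeff Q = 0 → aeval w Q ≠ 1) :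
    ∃ O : ValuationSubring K, (∀ c : ℂ, algebraMap ℂ K c ∈ O) ∧ ∀ i, O.valuation (w i) < 1 := by
  let A : Subring K := (aeval w : MvPolynomial I ℂ →ₐ[ℂ] K).toRingHom.range
  have hA : ∀ Q : MvPolynomial I ℂ, aeval w Q ∈ A := fun Q => ⟨Q, rfl⟩
  let ev : MvPolynomial I ℂ →+* A := (aeval w : MvPolynomial I ℂ →ₐ[ℂ] K).toRingHom.rangeRestrict
  have hev : Function.Surjective ev := RingHom.rangeRestrict_surjective _
  let J : Ideal A := (RingHom.ker (constantCoeff : MvPolynomial I ℂ →+* ℂ)).map ev
  have hJ : J ≠ ⊤ := by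
    intro hJ
    have h1 : (1 : A) ∈ J := by rw [hJ]; trivial
    rw [Ideal.mem_map_iff_of_surjective ev hev] at h1
    obtain ⟨Q, hQ, hQ1⟩ := h1
    apply h Q hQ
    exact congrArg Subtype.val hQ1
  obtain ⟨P, hPmax, hJP⟩ := Ideal.exists_le_maximal J hJ
  obtain ⟨O, hO⟩ := LocalSubring.exists_le_valuationSubring (LocalSubring.ofPrime A P)
  obtain ⟨hle, hloc⟩ := hO
  refine ⟨O, fun c => ?_, fun i => ?_⟩
  · have h1 : algebraMap ℂ K c ∈ A := by
      have := hA (C c)
      rwa [aeval_C] at this
    exact hle (LocalSubring.le_ofPrime A P h1)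
  · have hwA : w i ∈ A := by
      have := hA (X i)
      rwa [aeval_X] at this
    have hP : (⟨w i, hwA⟩ : A) ∈ P := by
      apply hJP
      have h2 : (⟨w i, hwA⟩ : A) = ev (X i) := by
        apply Subtype.ext
        change w i = aeval w (X i)
        rw [aeval_X]
      rw [h2]
      apply Ideal.mem_map_of_mem
      rw [RingHom.mem_ker, constantCoeff_X]
    have h3 : algebraMap A (LocalSubring.ofPrime A P).toSubring ⟨w i, hwA⟩ ∈
        IsLocalRing.maximalIdeal (LocalSubring.ofPrime A P).toSubring := by
      rw [IsLocalization.AtPrime.to_map_mem_maximal_iff (LocalSubring.ofPrime A P).toSubring P]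
      exact hP
    rw [IsLocalRing.mem_maximalIdeal] at h3
    have h4 : w i ∈ O := hle (LocalSubring.le_ofPrime A P hwA)
    have h5 : (⟨w i, h4⟩ : O) ∈ IsLocalRing.maximalIdeal O := by
      rw [IsLocalRing.mem_maximalIdeal]
      intro hu
      apply h3
      exact hloc.map_nonunit _ hu
    exact (ValuationSubring.valuation_lt_one_iff O ⟨w i, h4⟩).1 h5

theorem aeval_mul_of_homogeneous {S : Type*} [CommRing S] [Algebra ℂ S] {I : Type*} (a : I → S) (c : S)
    {Q : MvPolynomial I ℂ} {N : ℕ} (hQ : Q.IsHomogeneous N) :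
    aeval (fun i => a i * c) Q = aeval a Q * c ^ N := by
  rw [aeval_def, aeval_def, eval₂_eq, eval₂_eq, Finset.sum_mul]
  refine Finset.sum_congr rfl fun α hα => ?_
  have h1 : ∑ i ∈ α.support, α i = N := by
    have := hQ.degree_eq_sum_deg_support hα
    rw [this]
  simp only [mul_pow, Finset.prod_mul_distrib]
  rw [Finset.prod_pow_eq_pow_sum, h1]
  ring

variable {n : Type*} [Fintype n] [DecidableEq n] {I : Type*}

/-- If for each valuation ring one of the functions `P i / det ^ q` on `GL_n` is not in the maximal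
ideal, then some polynomial in the `P i` has a nonzero invariant part. -/
theorem git (P : I → MvPolynomial (n × n) ℂ) (q : ℕ)
    (hv : ∀ O : ValuationSubring (FractionRing (MvPolynomial (n × n) ℂ)),
      (∀ c : ℂ, algebraMap ℂ (FractionRing (MvPolynomial (n × n) ℂ)) c ∈ O) →
      ∃ i, 1 ≤ O.valuation (algebraMap _ (FractionRing (MvPolynomial (n × n) ℂ)) (P i) /
        (algebraMap _ (FractionRing (MvPolynomial (n × n) ℂ)) (dt n)) ^ q)) :
    ∃ N ≥ 1, ∃ Q : MvPolynomial I ℂ, Q.IsHomogeneous N ∧ ap (dt n ^ (q * N)) (aeval P Q) ≠ 0 := by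
  by_contra hcon
  push Not at hcon
  set K := FractionRing (MvPolynomial (n × n) ℂ)
  let ι : MvPolynomial (n × n) ℂ →+* K := algebraMap _ K
  have hι : Function.Injective ι := IsFractionRing.injective _ K
  have hD : ι (dt n) ≠ 0 := fun h => dt_ne_zero (hι (by rw [h, map_zero]))
  let w : I → K := fun i => ι (P i) / (ι (dt n)) ^ q
  obtain ⟨O, hO, hw⟩ := exists_valuationSubring w (by
    intro Q hQ0 hQ1
    set M := Q.totalDegree with hM
    have h1 : ∀ N, aeval w (homogeneousComponent N Q) =
        ι (aeval P (homogeneousComponent N Q)) * ((ι (dt n) ^ q)⁻¹) ^ N := by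
      intro N
      have h2 := aeval_mul_of_homogeneous (fun i => ι (P i)) ((ι (dt n) ^ q)⁻¹)
        (homogeneousComponent_isHomogeneous N Q)
      have h3 : aeval (fun i => ι (P i)) (homogeneousComponent N Q) =
          ι (aeval P (homogeneousComponent N Q)) := by
        have h4 := MvPolynomial.map_aeval P ι (homogeneousComponent N Q)
        rw [h4, aeval_def]
        rfl
      rw [← h3, ← h2]
      rfl
    have h2 : ι (∑ N ∈ Finset.range (M + 1), aeval P (homogeneousComponent N Q) *
        dt n ^ (q * (M - N))) = ι (dt n ^ (q * M)) := by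
      rw [map_sum]
      have h3 : ∑ N ∈ Finset.range (M + 1), aeval w (homogeneousComponent N Q) = 1 := by
        rw [← map_sum, sum_homogeneousComponent, hQ1]
      have h4 : ι (dt n ^ (q * M)) = (∑ N ∈ Finset.range (M + 1), aeval w (homogeneousComponent N Q)) *
          ι (dt n ^ (q * M)) := by rw [h3, one_mul]
      rw [h4, Finset.sum_mul]
      refine Finset.sum_congr rfl fun N hN => ?_
      have hN' : N ≤ M := Nat.lt_succ_iff.1 (Finset.mem_range.1 hN)
      rw [h1, map_mul, map_pow, map_pow]
      have h5 : ι (dt n) ^ (q * M) = ι (dt n) ^ (q * (M - N)) * (ι (dt n) ^ q) ^ N := by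
        rw [← pow_mul, ← pow_add, ← Nat.mul_add, Nat.sub_add_cancel hN']
      rw [h5]
      have h6 : ((ι (dt n) ^ q)⁻¹) ^ N * (ι (dt n) ^ q) ^ N = 1 := by
        rw [← mul_pow, inv_mul_cancel₀ (pow_ne_zero _ hD), one_pow]
      calc ι (aeval P (homogeneousComponent N Q)) * ι (dt n) ^ (q * (M - N))
          = ι (aeval P (homogeneousComponent N Q)) * ι (dt n) ^ (q * (M - N)) *
            (((ι (dt n) ^ q)⁻¹) ^ N * (ι (dt n) ^ q) ^ N) := by rw [h6, mul_one]
        _ = _ := by ring
    have h3 := hι h2
    have h4 : ap (dt n ^ (q * M)) (∑ N ∈ Finset.range (M + 1), aeval P (homogeneousComponent N Q) *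
        dt n ^ (q * (M - N))) = 0 := by
      rw [map_sum]
      refine Finset.sum_eq_zero fun N hN => ?_
      have hN' : N ≤ M := Nat.lt_succ_iff.1 (Finset.mem_range.1 hN)
      obtain ⟨c, hc⟩ := exists_const (n := n) (q * N) (q * (M - N))
      have h5 : q * N + q * (M - N) = q * M := by
        rw [← Nat.mul_add]
        congr 1
        omega
      rw [h5] at hc
      rw [hc]
      rcases Nat.eq_zero_or_pos N with h0 | hpos
      · subst h0
        have h6 : homogeneousComponent 0 Q = 0 := by
          rw [homogeneousComponent_zero]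
          have : coeff 0 Q = 0 := hQ0
          rw [this, C_0]
        rw [h6, map_zero, map_zero, mul_zero]
      · rw [hcon N hpos _ (homogeneousComponent_isHomogeneous N Q), mul_zero]
    rw [h3] at h4
    exact ap_dt_pow _ h4)
  obtain ⟨i, hi⟩ := hv O hO
  exact absurd (hw i) (not_lt.2 hi)

end H18.GIT
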